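import Mathlib

/-!
# The local condition over a field
-/

set_option autoImplicit false

namespace Pool.Agent.R492.Bez

open Polynomial

/-- The local condition: not both formal leading coefficients vanish and every common divisor has degree
at most one. -/
def Good {K : Type*} [Field K] (m n : ℕ) (F G : K[X]) : Prop :=
  ¬ (F.coeff m = 0 ∧ G.coeff n = 0) ∧ ∀ h : K[X], h ∣ F → h ∣ G → h.natDegree ≤ 1

/-- The polynomials of degree `< m + n` are generated by the constants and the multiples of `F`, `G`. -/
def Gen {K : Type*} [Field K] (m n : ℕ) (F G : K[X]) : Prop :=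
  ∀ W : K[X], W.degree < ((m + n : ℕ) : WithBot ℕ) → ∃ (k : K) (u v : K[X]), u.degree < (n : WithBot ℕ) ∧
    v.degree < (m : WithBot ℕ) ∧ W = C k + u * F + v * G

variable {K : Type*} [Field K]

lemma coeff_top_mul {m n : ℕ} (u F : K[X]) (hu : u.degree < (n : WithBot ℕ)) (hF : F.natDegree ≤ m)
    (hFm : F.coeff m = 0) (hmn : 1 ≤ m + n) : (u * F).coeff (m + n - 1) = 0 := by
  rcases eq_or_ne u 0 with rfl | hu0
  · simp
  rcases eq_or_ne F 0 with rfl | hF0
  · simp
  apply coeff_eq_zero_of_natDegree_lt
  rw [natDegree_mul hu0 hF0]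
  have h1 : u.natDegree < n := (natDegree_lt_iff_degree_lt hu0).2 hu
  have h2 : F.natDegree ≠ m := by
    intro h
    rw [← h] at hFm
    exact hF0 (leadingCoeff_eq_zero.1 hFm)
  omega

lemma gen_good {m n : ℕ} (hm : 1 ≤ m) (hn : 1 ≤ n) (F G : K[X]) (hF : F.natDegree ≤ m)
    (hG : G.natDegree ≤ n) (h : Gen m n F G) : Good m n F G := by
  constructor
  · rintro ⟨h1, h2⟩
    obtain ⟨k, u, v, hu, hv, hW⟩ := h (X ^ (m + n - 1)) (by
      rw [degree_X_pow]
      exact_mod_cast (by omega : m + n - 1 < m + n))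
    have h3 := congrArg (fun P => P.coeff (m + n - 1)) hW
    simp only [coeff_X_pow_self, coeff_add] at h3
    rw [coeff_top_mul u F hu hF h1 (by omega), coeff_C_of_ne_zero (by omega)] at h3
    have h4 := coeff_top_mul v G hv hG h2 (by omega)
    rw [add_comm n m] at h4
    rw [h4] at h3
    simp at h3
  · intro d hdF hdG
    obtain ⟨k, u, v, hu, hv, hW⟩ := h X (by
      rw [degree_X]
      exact_mod_cast (by omega : 1 < m + n))
    have h1 : d ∣ X - C k := by
      have : X - C k = u * F + v * G := by rw [hW]; ring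
      rw [this]
      exact dvd_add (hdF.mul_left u) (hdG.mul_left v)
    have h2 := natDegree_le_of_dvd h1 (X_sub_C_ne_zero k)
    rwa [natDegree_X_sub_C] at h2

/-- the Bézout identity with degree bounds, if `F` has exact degree `m` -/
lemma bezout_deg {m n : ℕ} (F G : K[X]) (hF : F.natDegree ≤ m) (hFm : F.coeff m ≠ 0)
    (hG : G.natDegree ≤ n) (W : K[X]) (hW : W.degree < ((m + n : ℕ) : WithBot ℕ))
    (a b : K[X]) (hab : a * F + b * G = W) :
    ∃ u v : K[X], u.degree < (n : WithBot ℕ) ∧ v.degree < (m : WithBot ℕ) ∧ W = u * F + v * G := by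
  have hF0 : F ≠ 0 := by rintro rfl; simp at hFm
  have hFd : F.natDegree = m := le_antisymm hF (le_natDegree_of_ne_zero hFm)
  have hdeg : F.degree = m := by rw [degree_eq_natDegree hF0, hFd]
  refine ⟨a + (b / F) * G, b % F, ?_, ?_, ?_⟩
  · have h1 : (a + (b / F) * G) * F = W - (b % F) * G := by
      have := EuclideanDomain.div_add_mod b F
      rw [← hab]
      linear_combination G * this
    have h2 : (W - (b % F) * G).degree < ((m + n : ℕ) : WithBot ℕ) := by
      refine lt_of_le_of_lt (degree_sub_le _ _) (max_lt hW ?_)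
      rcases eq_or_ne ((b % F) * G) 0 with h0 | h0
      · rw [h0, degree_zero]; exact WithBot.bot_lt_coe _
      · rw [degree_eq_natDegree h0, natDegree_mul (left_ne_zero_of_mul h0) (right_ne_zero_of_mul h0)]
        have h3 : (b % F).natDegree < m := by
          rw [natDegree_lt_iff_degree_lt (left_ne_zero_of_mul h0), ← hdeg]
          exact EuclideanDomain.mod_lt b hF0
        exact_mod_cast (by omega : (b % F).natDegree + G.natDegree < m + n)
    rcases eq_or_ne (a + (b / F) * G) 0 with h0 | h0
    · rw [h0, degree_zero]; exact WithBot.bot_lt_coe _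
    · rw [← h1] at h2
      rw [degree_eq_natDegree (mul_ne_zero h0 hF0), natDegree_mul h0 hF0, hFd] at h2
      rw [degree_eq_natDegree h0]
      have h3 : (a + (b / F) * G).natDegree + m < m + n := by exact_mod_cast h2
      exact_mod_cast (by omega : (a + (b / F) * G).natDegree < n)
  · rw [← hdeg]
    exact EuclideanDomain.mod_lt b hF0
  · have := EuclideanDomain.div_add_mod b F
    rw [← hab]
    linear_combination (-G) * this

lemma good_gen {m n : ℕ} (hmn : 1 ≤ m + n) (F G : K[X]) (hF : F.natDegree ≤ m)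
    (hG : G.natDegree ≤ n) (h : Good m n F G) : Gen m n F G := by
  intro W hW
  classical
  set d := EuclideanDomain.gcd F G with hd
  have hd0 : d ≠ 0 := by
    intro h0
    rw [hd, EuclideanDomain.gcd_eq_zero_iff] at h0
    exact h.1 ⟨by rw [h0.1, coeff_zero], by rw [h0.2, coeff_zero]⟩
  have hd1 : d.natDegree ≤ 1 := h.2 d (EuclideanDomain.gcd_dvd_left F G) (EuclideanDomain.gcd_dvd_right F G)
  -- a constant `k` with `d ∣ W - k`
  obtain ⟨k, hk⟩ : ∃ k : K, d ∣ W - C k := by
    rcases Nat.le_one_iff_eq_zero_or_eq_one.1 hd1 with h0 | h1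
    · refine ⟨0, ?_⟩
      rw [eq_C_of_natDegree_eq_zero h0]
      apply IsUnit.dvd
      rw [isUnit_C]
      apply IsUnit.mk0
      intro hc
      rw [eq_C_of_natDegree_eq_zero h0, hc, C_0] at hd0
      exact hd0 rfl
    · obtain ⟨r, hr⟩ : ∃ r, d.eval r = 0 := exists_root_of_degree_eq_one (by
        rw [degree_eq_natDegree hd0, h1]; rfl)
      refine ⟨W.eval r, ?_⟩
      have h2 : X - C r ∣ W - C (W.eval r) := by
        rw [dvd_iff_isRoot]; simp
      have h3 : d ∣ X - C r := by
        have h4 : X - C r ∣ d := dvd_iff_isRoot.2 hr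
        obtain ⟨e, he⟩ := h4
        have he0 : e ≠ 0 := by rintro rfl; rw [mul_zero] at he; exact hd0 he
        have h5 : e.natDegree = 0 := by
          have := congrArg natDegree he
          rw [natDegree_mul (X_sub_C_ne_zero r) he0, natDegree_X_sub_C, h1] at this
          omega
        have h6 : IsUnit e := by
          rw [eq_C_of_natDegree_eq_zero h5, isUnit_C]
          apply IsUnit.mk0
          intro hc
          rw [eq_C_of_natDegree_eq_zero h5, hc, C_0] at he0
          exact he0 rfl
        rw [he]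
        exact (IsUnit.mul_right_dvd h6).2 dvd_rfl
      exact h3.trans h2
  obtain ⟨c, hc⟩ := hk
  have hbez := EuclideanDomain.gcd_eq_gcd_ab F G
  have hab : (EuclideanDomain.gcdA F G * c) * F + (EuclideanDomain.gcdB F G * c) * G = W - C k := by
    rw [hc, hd, hbez]; ring
  have hWk : (W - C k).degree < ((m + n : ℕ) : WithBot ℕ) := by
    refine lt_of_le_of_lt (degree_sub_le _ _) (max_lt hW ?_)
    refine lt_of_le_of_lt degree_C_le ?_
    exact_mod_cast (by omega : 0 < m + n)
  by_cases hFm : F.coeff m = 0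
  · have hGn : G.coeff n ≠ 0 := fun h2 => h.1 ⟨hFm, h2⟩
    obtain ⟨v, u, hv, hu, huv⟩ := bezout_deg G F hG hGn hF (W - C k) (by rwa [add_comm n m])
      (EuclideanDomain.gcdB F G * c) (EuclideanDomain.gcdA F G * c) (by rw [← hab]; ring)
    refine ⟨k, u, v, hu, hv, ?_⟩
    linear_combination huv
  · obtain ⟨u, v, hu, hv, huv⟩ := bezout_deg F G hF hFm hG (W - C k) hWk
      (EuclideanDomain.gcdA F G * c) (EuclideanDomain.gcdB F G * c) hab
    refine ⟨k, u, v, hu, hv, ?_⟩
    linear_combination huv

end Pool.Agent.R492.Bez
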