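import Mathlib
import Pool.Agent.R492.Bez.Field

/-!
# An integer that detects the large primes modulo which `f` and `g` have a common divisor of degree two
-/

set_option autoImplicit false

namespace Pool.Agent.R492.Bez

open Polynomial

section pol

variable {R S : Type*} [CommRing R] [CommRing S]

/-- the polynomial with coefficients `x 0, ..., x k` -/
noncomputable def pol {k : ℕ} (x : Fin (k + 1) → R) : R[X] := ∑ i : Fin (k + 1), C (x i) * X ^ (i : ℕ)

lemma pol_coeff {k : ℕ} (x : Fin (k + 1) → R) (i : Fin (k + 1)) : (pol x).coeff i = x i := by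
  unfold pol
  rw [finsetSum_coeff, Finset.sum_eq_single i]
  · simp
  · intro j _ hj
    rw [coeff_C_mul, coeff_X_pow, if_neg (fun h => hj (Fin.ext h.symm)), mul_zero]
  · intro h; exact absurd (Finset.mem_univ i) h

lemma pol_degree {k : ℕ} (x : Fin (k + 1) → R) : (pol x).degree < ((k + 1 : ℕ) : WithBot ℕ) :=
  degree_sum_fin_lt _

lemma pol_map {k : ℕ} (φ : R →+* S) (x : Fin (k + 1) → R) : (pol x).map φ = pol (fun i => φ (x i)) := by
  unfold pol
  simp [Polynomial.map_sum]

lemma pol_natDegree {k : ℕ} (x : Fin (k + 1) → R) : (pol x).natDegree ≤ k := by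
  rcases subsingleton_or_nontrivial R with h | h
  · rw [Subsingleton.elim (pol x) 0]; simp
  rcases eq_or_ne (pol x) 0 with h0 | h0
  · rw [h0]; simp
  · have h1 := (natDegree_lt_iff_degree_lt h0).2 (pol_degree x)
    omega

lemma pol_of {k : ℕ} (f : R[X]) (hf : f.natDegree ≤ k) : pol (fun i : Fin (k + 1) => f.coeff i) = f := by
  ext j
  rcases Nat.lt_or_ge j (k + 1) with h | h
  · exact pol_coeff (fun i : Fin (k + 1) => f.coeff i) ⟨j, h⟩
  · rw [coeff_eq_zero_of_natDegree_lt (lt_of_le_of_lt (pol_natDegree _) (by omega)),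
      coeff_eq_zero_of_natDegree_lt (by omega)]

lemma pol_inj {k : ℕ} {x y : Fin (k + 1) → R} (h : pol x = pol y) : x = y := by
  funext i
  rw [← pol_coeff x i, h, pol_coeff]

end pol

variable {m n : ℕ} {R S : Type*} [CommRing R] [CommRing S]

/-- coefficient vectors of the pairs of polynomials -/
abbrev Sg (m n : ℕ) : Type := Fin (m + 1) ⊕ Fin (n + 1)

/-- the first polynomial -/
noncomputable def ff (z : Sg m n → R) : R[X] := pol (fun i => z (Sum.inl i))

/-- the second polynomial -/
noncomputable def gg (z : Sg m n → R) : R[X] := pol (fun i => z (Sum.inr i))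

/-- the leading coefficient of the second polynomial -/
def cc (z : Sg m n → R) : R := z (Sum.inr (Fin.last n))

/-- `c ^ m (f - f 0) (y / c)` -/
noncomputable def ft (z : Sg m n → R) : R[X] :=
  ∑ i : Fin m, C (z (Sum.inl i.succ) * cc z ^ (m - 1 - (i : ℕ))) * X ^ ((i : ℕ) + 1)

/-- `c ^ (n - 1) g (y / c)` -/
noncomputable def gt (z : Sg m n → R) : R[X] :=
  X ^ n + ∑ j : Fin n, C (z (Sum.inr j.castSucc) * cc z ^ (n - 1 - (j : ℕ))) * X ^ (j : ℕ)

lemma gt_monic (z : Sg m n → R) : (gt z).Monic := monic_X_pow_add (degree_sum_fin_lt _)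

/-- the matrix of the powers of `ft` modulo `gt` -/
noncomputable def Mt (z : Sg m n → R) : Matrix (Fin n) (Fin n) R :=
  Matrix.of fun k j : Fin n => ((ft z) ^ (k : ℕ) %ₘ gt z).coeff j

/-- its determinant -/
noncomputable def Dt (z : Sg m n → R) : R := (Mt z).det

lemma ft_map (φ : R →+* S) (z : Sg m n → R) : (ft z).map φ = ft (fun i => φ (z i)) := by
  unfold ft cc
  simp [Polynomial.map_sum]

lemma gt_map (φ : R →+* S) (z : Sg m n → R) : (gt z).map φ = gt (fun i => φ (z i)) := by
  unfold gt cc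
  simp [Polynomial.map_sum]

lemma Dt_map (φ : R →+* S) (z : Sg m n → R) : φ (Dt z) = Dt (fun i => φ (z i)) := by
  unfold Dt
  rw [RingHom.map_det]
  congr 1
  ext k j
  simp only [RingHom.mapMatrix_apply, Matrix.map_apply, Mt, Matrix.of_apply]
  rw [← ft_map φ z, ← gt_map φ z, ← Polynomial.map_pow, ← map_modByMonic φ (gt_monic z), coeff_map]

lemma ft_comp (z : Sg m n → R) : (ft z).comp (C (cc z) * X) = C (cc z ^ m) * (ff z - C (z (Sum.inl 0))) := by
  unfold ft ff pol
  rw [Fin.sum_univ_succ]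
  simp only [Fin.val_zero, pow_zero, mul_one, add_sub_cancel_left]
  rw [Finset.mul_sum]
  simp only [sum_comp, mul_comp, C_comp, pow_comp, X_comp]
  apply Finset.sum_congr rfl
  intro i _
  rw [mul_pow, ← C_pow, Fin.val_succ, ← mul_assoc, ← C_mul, ← mul_assoc, ← C_mul]
  congr 2
  rw [mul_assoc, ← pow_add, show m - 1 - (i : ℕ) + ((i : ℕ) + 1) = m by have := i.2; omega, mul_comm]

lemma gt_comp (hn : 1 ≤ n) (z : Sg m n → R) : (gt z).comp (C (cc z) * X) = C (cc z ^ (n - 1)) * gg z := by
  unfold gt gg pol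
  rw [Fin.sum_univ_castSucc]
  simp only [add_comp, sum_comp, mul_comp, C_comp, pow_comp, X_comp]
  rw [mul_add, Finset.mul_sum, add_comm]
  congr 1
  · apply Finset.sum_congr rfl
    intro j _
    rw [mul_pow, ← C_pow, Fin.val_castSucc, ← mul_assoc, ← C_mul, ← mul_assoc, ← C_mul]
    congr 2
    rw [mul_assoc, ← pow_add, show n - 1 - (j : ℕ) + (j : ℕ) = n - 1 by have := j.2; omega, mul_comm]
  · rw [mul_pow, ← C_pow, Fin.val_last, ← mul_assoc, ← C_mul]
    congr 2
    unfold cc
    rw [← pow_succ, show n - 1 + 1 = n by omega]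

/-- If `f` and `g` have a common divisor of degree at least two then `Dt` vanishes. -/
lemma Dt_zero {K : Type*} [Field K] (hn : 2 ≤ n) (z : Sg m n → K) (hc : cc z ≠ 0) (h : K[X])
    (h1 : h ∣ ff z) (h2 : h ∣ gg z) (h3 : 2 ≤ h.natDegree) : Dt z = 0 := by
  by_contra hD
  have hu : IsUnit (Mt z).det := IsUnit.mk0 _ hD
  obtain ⟨a, ha⟩ : ∃ a : Fin n → K, Matrix.vecMul a (Mt z) = Pi.single ⟨1, by omega⟩ 1 := by
    refine ⟨Matrix.vecMul (Pi.single ⟨1, by omega⟩ 1) (Mt z)⁻¹, ?_⟩
    rw [Matrix.vecMul_vecMul, Matrix.nonsing_inv_mul _ hu, Matrix.vecMul_one]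
  have hX : ∑ k : Fin n, C (a k) * ((ft z) ^ (k : ℕ) %ₘ gt z) = X := by
    ext j
    rw [finsetSum_coeff]
    simp only [coeff_C_mul]
    rcases Nat.lt_or_ge j n with hj | hj
    · have h4 := congrFun ha ⟨j, hj⟩
      simp only [Matrix.vecMul, dotProduct, Mt, Matrix.of_apply] at h4
      rw [h4, Pi.single_apply, coeff_X]
      simp only [Fin.mk.injEq]
      exact if_congr eq_comm rfl rfl
    · rw [coeff_X, if_neg (by omega)]
      apply Finset.sum_eq_zero
      intro k _
      rw [coeff_eq_zero_of_degree_lt, mul_zero]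
      have h5 := degree_modByMonic_lt (ft z ^ (k : ℕ)) (gt_monic z)
      have h6 : (gt z).degree = (n : WithBot ℕ) := by
        unfold gt
        rw [degree_add_eq_left_of_degree_lt (by rw [degree_X_pow]; exact degree_sum_fin_lt _), degree_X_pow]
      rw [h6] at h5
      exact lt_of_lt_of_le h5 (by exact_mod_cast hj)
  -- modulo `h` everything is a constant
  have h4 : h ∣ C (cc z) * X - C (∑ k : Fin n, a k * (-(cc z ^ m * z (Sum.inl 0))) ^ (k : ℕ)) := by
    have h5 := congrArg (fun P => P.comp (C (cc z) * X)) hX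
    simp only [sum_comp, mul_comp, C_comp, X_comp] at h5
    rw [← h5, map_sum, ← Finset.sum_sub_distrib]
    apply Finset.dvd_sum
    intro k _
    rw [C_mul, ← mul_sub]
    apply Dvd.dvd.mul_left
    have h6 : (ft z) ^ (k : ℕ) %ₘ gt z = (ft z) ^ (k : ℕ) - gt z * ((ft z) ^ (k : ℕ) /ₘ gt z) := by
      rw [modByMonic_eq_sub_mul_div]
    rw [h6, sub_comp, mul_comp, pow_comp, ft_comp, gt_comp (by omega)]
    have h7 : C ((-(cc z ^ m * z (Sum.inl 0))) ^ (k : ℕ)) = (C (cc z ^ m) * (0 - C (z (Sum.inl 0)))) ^ (k : ℕ) := by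
      rw [C_pow, C_neg, C_mul]; congr 1; ring
    rw [h7]
    have h8 : h ∣ (C (cc z ^ m) * (ff z - C (z (Sum.inl 0)))) ^ (k : ℕ) -
        (C (cc z ^ m) * (0 - C (z (Sum.inl 0)))) ^ (k : ℕ) := by
      refine dvd_trans ?_ (sub_dvd_pow_sub_pow _ _ _)
      have : C (cc z ^ m) * (ff z - C (z (Sum.inl 0))) - C (cc z ^ m) * (0 - C (z (Sum.inl 0))) =
        C (cc z ^ m) * ff z := by ring
      rw [this]
      exact h1.mul_left _
    have h9 : h ∣ C (cc z ^ (n - 1)) * gg z * ((ft z) ^ (k : ℕ) /ₘ gt z).comp (C (cc z) * X) :=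
      (h2.mul_left _).mul_right _
    have h10 := dvd_sub h8 h9
    convert h10 using 1
    ring
  have h5 : (C (cc z) * X - C (∑ k : Fin n, a k * (-(cc z ^ m * z (Sum.inl 0))) ^ (k : ℕ))).natDegree = 1 := by
    rw [sub_eq_add_neg, ← C_neg]
    exact natDegree_linear hc
  have h6 := natDegree_le_of_dvd h4 (by
    intro h0
    rw [h0] at h5
    simp at h5)
  omega

lemma Dt_update {m n : ℕ} (z : Sg m n → R) (t : R) : Dt (Function.update z (Sum.inl 0) t) = Dt z := by
  have h1 : ft (Function.update z (Sum.inl 0) t) = ft z := by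
    unfold ft cc
    simp [Fin.succ_ne_zero]
  have h2 : gt (Function.update z (Sum.inl 0) t) = gt z := by
    unfold gt cc
    simp
  unfold Dt Mt
  rw [h1, h2]

/-- the universal determinant -/
noncomputable def DU (m n : ℕ) : MvPolynomial (Sg m n) ℤ := Dt (fun i => MvPolynomial.X i)

lemma eval_DU (z : Sg m n → ℤ) : MvPolynomial.eval z (DU m n) = Dt z := by
  unfold DU
  rw [Dt_map]
  simp

lemma DU_ne (hm : 1 ≤ m) : DU m n ≠ 0 := by
  intro h0
  have h1 := eval_DU (fun i : Sg m n => if i = Sum.inl ⟨1, by omega⟩ ∨ i = Sum.inr (Fin.last n) then 1 else 0)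
  rw [h0, map_zero] at h1
  set z : Sg m n → ℤ := fun i => if i = Sum.inl ⟨1, by omega⟩ ∨ i = Sum.inr (Fin.last n) then 1 else 0 with hz
  have hc : cc z = 1 := by unfold cc; simp [hz]
  have hf : ft z = X := by
    unfold ft
    rw [Finset.sum_eq_single (⟨0, by omega⟩ : Fin m)]
    · rw [hc]; simp [hz]
    · intro j _ hj
      have : z (Sum.inl j.succ) = 0 := by
        simp only [hz, reduceCtorEq, or_false, ite_eq_right_iff, one_ne_zero, imp_false, Sum.inl.injEq]
        intro h
        apply hj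
        rw [Fin.ext_iff] at h ⊢
        simpa using h
      rw [this]; simp
    · intro h; exact absurd (Finset.mem_univ _) h
  have hg : gt z = X ^ n := by
    unfold gt
    rw [Finset.sum_eq_zero, add_zero]
    intro j _
    have : z (Sum.inr j.castSucc) = 0 := by
      simp only [hz, reduceCtorEq, false_or, ite_eq_right_iff, one_ne_zero, imp_false, Sum.inr.injEq]
      intro h
      rw [Fin.ext_iff] at h
      have := j.2
      simp at h
      omega
    rw [this]; simp
  have hM : Mt z = 1 := by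
    ext k j
    unfold Mt
    rw [Matrix.of_apply, hf, hg, (modByMonic_eq_self_iff (monic_X_pow n)).2, coeff_X_pow, Matrix.one_apply]
    · simp only [Fin.ext_iff]
      exact if_congr eq_comm rfl rfl
    · rw [degree_X_pow, degree_X_pow]
      exact_mod_cast k.2
  unfold Dt at h1
  rw [hM, Matrix.det_one] at h1
  exact zero_ne_one h1

end Pool.Agent.R492.Bez
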