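import Mathlib

/-!
# Boxes of integer vectors and residue classes
-/

set_option autoImplicit false

namespace Pool.Agent.R492.Bez

open Finset Filter Topology

section gen

variable {ι : Type*} [Fintype ι] [DecidableEq ι]

/-- the interval of the coordinate `i`: `[1, H]` if `J i` holds, otherwise `[-H, H]` -/
noncomputable def Iv (J : ι → Bool) (H : ℕ) (i : ι) : Finset ℤ := if J i then Icc 1 (H : ℤ) else Icc (-(H : ℤ)) H

/-- the box -/
noncomputable def Bx (J : ι → Bool) (H : ℕ) : Finset (ι → ℤ) := Fintype.piFinset (Iv J H)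

lemma mem_Bx_abs {J : ι → Bool} {H : ℕ} {z : ι → ℤ} (hz : z ∈ Bx J H) (i : ι) : |z i| ≤ H := by
  have h := Fintype.mem_piFinset.1 hz i
  unfold Iv at h
  split_ifs at h <;> rw [mem_Icc] at h <;> rw [abs_le] <;> omega

lemma card_Iv (J : ι → Bool) (H : ℕ) (i : ι) : (Iv J H i).card = if J i then H else 2 * H + 1 := by
  unfold Iv
  split_ifs
  · rw [Int.card_Icc]; omega
  · rw [Int.card_Icc]; omega

lemma card_Iv_ge (J : ι → Bool) (H : ℕ) (i : ι) : H ≤ (Iv J H i).card := by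
  rw [card_Iv]; split_ifs <;> omega

lemma card_Iv_le (J : ι → Bool) (H : ℕ) (i : ι) : (Iv J H i).card ≤ 2 * H + 1 := by
  rw [card_Iv]; split_ifs <;> omega

lemma card_Bx_ge (J : ι → Bool) (H : ℕ) : H ^ Fintype.card ι ≤ (Bx J H).card := by
  unfold Bx
  rw [Fintype.card_piFinset]
  calc H ^ Fintype.card ι = ∏ _i : ι, H := by simp
    _ ≤ _ := Finset.prod_le_prod' fun i _ => card_Iv_ge J H i

/-- counting a residue class in an interval -/
lemma cls (a b : ℤ) (hab : a ≤ b + 1) (M : ℕ) (hM : 0 < M) (r : ZMod M) :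
    |(((Icc a b).filter (fun t : ℤ => (t : ZMod M) = r)).card : ℝ) - ((b + 1 - a : ℤ) : ℝ) / M| ≤ 1 := by
  have hM' : NeZero M := ⟨hM.ne'⟩
  obtain ⟨v, rfl⟩ := ZMod.intCast_surjective r
  have h1 : (Icc a b).filter (fun t : ℤ => (t : ZMod M) = (v : ZMod M)) =
      (Ico a (b + 1)).filter (fun t : ℤ => t ≡ v [ZMOD (M : ℤ)]) := by
    ext t
    simp only [mem_filter, mem_Icc, mem_Ico, ZMod.intCast_eq_intCast_iff, Int.lt_add_one_iff]
  have h2 := Int.Ico_filter_modEq_card a (b + 1) (show (0 : ℤ) < M by exact_mod_cast hM) v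
  have hMr : (0 : ℚ) < (M : ℚ) := by exact_mod_cast hM
  rw [← h1] at h2
  set c := ((Icc a b).filter (fun t : ℤ => (t : ZMod M) = (v : ZMod M))).card with hc
  have e1 := Int.le_ceil (((b + 1 : ℤ) - v : ℚ) / ((M : ℤ) : ℚ))
  have e2 := Int.ceil_lt_add_one (((b + 1 : ℤ) - v : ℚ) / ((M : ℤ) : ℚ))
  have e3 := Int.le_ceil (((a : ℤ) - v : ℚ) / ((M : ℤ) : ℚ))
  have e4 := Int.ceil_lt_add_one (((a : ℤ) - v : ℚ) / ((M : ℤ) : ℚ))
  have e5 : (((b + 1 : ℤ) - v : ℚ) / ((M : ℤ) : ℚ)) - (((a : ℤ) - v : ℚ) / ((M : ℤ) : ℚ)) =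
      ((b + 1 - a : ℤ) : ℚ) / M := by
    push_cast; ring
  have e6 : (0 : ℚ) ≤ ((b + 1 - a : ℤ) : ℚ) / M := by
    apply div_nonneg _ hMr.le
    exact_mod_cast (by omega : (0 : ℤ) ≤ b + 1 - a)
  have h3 : |((c : ℤ) : ℚ) - ((b + 1 - a : ℤ) : ℚ) / M| ≤ 1 := by
    rw [h2, abs_le]
    push_cast at *
    constructor
    · have := le_max_left (((⌈((b : ℚ) + 1 - v) / M⌉ : ℤ) : ℚ) - ((⌈((a : ℚ) - v) / M⌉ : ℤ) : ℚ)) 0
      linarith
    · rw [sub_le_iff_le_add]
      apply max_le
      · linarith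
      · linarith
  have h4 : |(c : ℝ) - ((b + 1 - a : ℤ) : ℝ) / M| ≤ 1 := by
    have h5 : ((|((c : ℤ) : ℚ) - ((b + 1 - a : ℤ) : ℚ) / M| : ℚ) : ℝ) ≤ ((1 : ℚ) : ℝ) := by exact_mod_cast h3
    push_cast at h5 ⊢
    exact h5
  exact h4

lemma Iv_cls (J : ι → Bool) (H : ℕ) (i : ι) (M : ℕ) (hM : 0 < M) (r : ZMod M) :
    |(((Iv J H i).filter (fun t : ℤ => (t : ZMod M) = r)).card : ℝ) - ((Iv J H i).card : ℝ) / M| ≤ 1 := by
  rw [card_Iv]
  unfold Iv
  split_ifs
  · have := cls 1 H (by omega) M hM r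
    convert this using 4
    push_cast; ring
  · have := cls (-(H : ℤ)) H (by omega) M hM r
    convert this using 4
    push_cast; ring

lemma Iv_cls_le (J : ι → Bool) (H : ℕ) (i : ι) (p : ℕ) (hp : 0 < p) (hpH : p ≤ 2 * H) (r : ZMod p) :
    (((Iv J H i).filter (fun t : ℤ => (t : ZMod p) = r)).card : ℝ) ≤ 5 * H / p := by
  have h1 := (abs_le.1 (Iv_cls J H i p hp r)).2
  have h2 : ((Iv J H i).card : ℝ) ≤ 2 * H + 1 := by exact_mod_cast card_Iv_le J H i
  have hp0 : (0 : ℝ) < p := by exact_mod_cast hp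
  have h3 : (p : ℝ) ≤ 2 * H := by exact_mod_cast hpH
  have h4 : (1 : ℝ) ≤ p := by exact_mod_cast hp
  have h5 : ((Iv J H i).card : ℝ) / p ≤ (2 * H + 1) / p := div_le_div_of_nonneg_right h2 hp0.le
  have h6 : (2 * (H : ℝ) + 1) / p + 1 ≤ 5 * H / p := by
    rw [div_add_one hp0.ne']
    apply div_le_div_of_nonneg_right _ hp0.le
    have h7 : (1 : ℝ) ≤ H := by exact_mod_cast (by omega : 1 ≤ H)
    linarith
  linarith

lemma Bx_cls (J : ι → Bool) (H M : ℕ) (r : ι → ZMod M) :
    ((Bx J H).filter (fun z => (fun i => (z i : ZMod M)) = r)).card =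
      ∏ i, ((Iv J H i).filter (fun t : ℤ => (t : ZMod M) = r i)).card := by
  rw [← Fintype.card_piFinset]
  congr 1
  ext z
  simp only [Bx, mem_filter, Fintype.mem_piFinset, funext_iff]
  exact ⟨fun h i => ⟨h.1 i, h.2 i⟩, fun h => ⟨fun i => (h i).1, fun i => (h i).2⟩⟩

lemma Bx_cls_le (J : ι → Bool) (H : ℕ) (p : ℕ) (hp : 0 < p) (hpH : p ≤ 2 * H)
    (G : Finset (ι → ZMod p)) :
    (((Bx J H).filter (fun z => (fun i => (z i : ZMod p)) ∈ G)).card : ℝ) ≤
      G.card * (5 * H / p) ^ Fintype.card ι := by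
  have h1 : ((Bx J H).filter (fun z => (fun i => (z i : ZMod p)) ∈ G)).card =
      ∑ r ∈ G, ((Bx J H).filter (fun z => (fun i => (z i : ZMod p)) = r)).card := by
    rw [card_eq_sum_card_fiberwise (f := fun z : ι → ℤ => fun i => (z i : ZMod p)) (t := G)]
    · apply sum_congr rfl
      intro r hr
      congr 1
      ext z
      simp only [mem_filter]
      constructor
      · rintro ⟨⟨a, _⟩, c⟩; exact ⟨a, c⟩
      · rintro ⟨a, c⟩; exact ⟨⟨a, by rw [c]; exact hr⟩, c⟩
    · intro z hz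
      exact (mem_filter.1 hz).2
  rw [h1]
  push_cast
  calc ∑ r ∈ G, (((Bx J H).filter (fun z => (fun i => (z i : ZMod p)) = r)).card : ℝ)
      ≤ ∑ _r ∈ G, (5 * (H : ℝ) / p) ^ Fintype.card ι := by
        apply sum_le_sum
        intro r _
        rw [Bx_cls]
        push_cast
        calc ∏ i, (((Iv J H i).filter (fun t : ℤ => (t : ZMod p) = r i)).card : ℝ)
            ≤ ∏ _i : ι, (5 * (H : ℝ) / p) :=
              Finset.prod_le_prod (fun i _ => by positivity) (fun i _ => Iv_cls_le J H i p hp hpH (r i))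
          _ = _ := by rw [prod_const, Finset.card_univ]
    _ = _ := by rw [sum_const, nsmul_eq_mul]

lemma Iv_tendsto (J : ι → Bool) (i : ι) (M : ℕ) (hM : 0 < M) (r : ZMod M) :
    Tendsto (fun H : ℕ => (((Iv J H i).filter (fun t : ℤ => (t : ZMod M) = r)).card : ℝ) /
      ((Iv J H i).card : ℝ)) atTop (𝓝 (1 / M)) := by
  rw [tendsto_iff_dist_tendsto_zero]
  apply squeeze_zero' (g := fun H : ℕ => 1 / (H : ℝ))
  · exact Eventually.of_forall fun _ => dist_nonneg
  · filter_upwards [eventually_ge_atTop 1] with H hH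
    have hH0 : (0 : ℝ) < H := by exact_mod_cast hH
    have hc : (0 : ℝ) < ((Iv J H i).card : ℝ) := lt_of_lt_of_le hH0 (by exact_mod_cast card_Iv_ge J H i)
    have h1 := Iv_cls J H i M hM r
    rw [Real.dist_eq]
    have h2 : (((Iv J H i).filter (fun t : ℤ => (t : ZMod M) = r)).card : ℝ) / ((Iv J H i).card : ℝ) - 1 / M =
      ((((Iv J H i).filter (fun t : ℤ => (t : ZMod M) = r)).card : ℝ) - ((Iv J H i).card : ℝ) / M) /
        ((Iv J H i).card : ℝ) := by
      field_simp
    rw [h2, abs_div, abs_of_pos hc]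
    calc _ ≤ 1 / ((Iv J H i).card : ℝ) := div_le_div_of_nonneg_right h1 hc.le
      _ ≤ 1 / H := one_div_le_one_div_of_le hH0 (by exact_mod_cast card_Iv_ge J H i)
  · exact tendsto_one_div_atTop_nhds_zero_nat

/-- The density of a union of residue classes. -/
lemma Bx_tendsto (J : ι → Bool) (M : ℕ) (hM : 0 < M) (G : Finset (ι → ZMod M)) :
    Tendsto (fun H : ℕ => (((Bx J H).filter (fun z => (fun i => (z i : ZMod M)) ∈ G)).card : ℝ) /
      ((Bx J H).card : ℝ)) atTop (𝓝 (G.card / (M : ℝ) ^ Fintype.card ι)) := by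
  have h1 : ∀ H : ℕ, (((Bx J H).filter (fun z => (fun i => (z i : ZMod M)) ∈ G)).card : ℝ) /
      ((Bx J H).card : ℝ) = ∑ r ∈ G, ∏ i, ((((Iv J H i).filter (fun t : ℤ => (t : ZMod M) = r i)).card : ℝ) /
      ((Iv J H i).card : ℝ)) := by
    intro H
    have h1 : ((Bx J H).filter (fun z => (fun i => (z i : ZMod M)) ∈ G)).card =
        ∑ r ∈ G, ((Bx J H).filter (fun z => (fun i => (z i : ZMod M)) = r)).card := by
      rw [card_eq_sum_card_fiberwise (f := fun z : ι → ℤ => fun i => (z i : ZMod M)) (t := G)]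
      · apply sum_congr rfl
        intro r hr
        congr 1
        ext z
        simp only [mem_filter]
        constructor
        · rintro ⟨⟨a, _⟩, c⟩; exact ⟨a, c⟩
        · rintro ⟨a, c⟩; exact ⟨⟨a, by rw [c]; exact hr⟩, c⟩
      · intro z hz
        exact (mem_filter.1 hz).2
    rw [h1]
    push_cast
    rw [sum_div]
    apply sum_congr rfl
    intro r _
    rw [Bx_cls, prod_div_distrib]
    congr 1
    · push_cast; rfl
    · unfold Bx
      rw [Fintype.card_piFinset]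
      push_cast; rfl
  simp_rw [h1]
  have h2 : (G.card / (M : ℝ) ^ Fintype.card ι) = ∑ _r ∈ G, ∏ _i : ι, (1 / (M : ℝ)) := by
    rw [sum_const, prod_const, Finset.card_univ, nsmul_eq_mul, one_div, inv_pow, div_eq_mul_inv]
  rw [h2]
  exact tendsto_finsetSum _ fun r _ => tendsto_finsetProd _ fun i _ => Iv_tendsto J i M hM (r i)

/-- polynomial bound of polynomial functions -/
lemma bd (P : MvPolynomial ι ℤ) : ∃ C k : ℕ, ∀ H : ℕ, 1 ≤ H → ∀ z : ι → ℤ, (∀ i, |z i| ≤ H) →
    |MvPolynomial.eval z P| ≤ C * H ^ k := by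
  induction P using MvPolynomial.induction_on with
  | C a =>
    refine ⟨a.natAbs, 0, fun H _ z _ => ?_⟩
    simp
  | add p q hp hq =>
    obtain ⟨C₁, k₁, h₁⟩ := hp
    obtain ⟨C₂, k₂, h₂⟩ := hq
    refine ⟨C₁ + C₂, k₁ + k₂, fun H hH z hz => ?_⟩
    rw [map_add]
    have hH' : (1 : ℤ) ≤ H := by exact_mod_cast hH
    calc |MvPolynomial.eval z p + MvPolynomial.eval z q| ≤ C₁ * (H : ℤ) ^ k₁ + C₂ * (H : ℤ) ^ k₂ :=
          (abs_add_le _ _).trans (add_le_add (h₁ H hH z hz) (h₂ H hH z hz))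
      _ ≤ C₁ * (H : ℤ) ^ (k₁ + k₂) + C₂ * (H : ℤ) ^ (k₁ + k₂) := by
          apply add_le_add
          · exact mul_le_mul_of_nonneg_left (pow_le_pow_right₀ hH' (by omega)) (by positivity)
          · exact mul_le_mul_of_nonneg_left (pow_le_pow_right₀ hH' (by omega)) (by positivity)
      _ = _ := by push_cast; ring
  | mul_X p i hp =>
    obtain ⟨C₁, k₁, h₁⟩ := hp
    refine ⟨C₁, k₁ + 1, fun H hH z hz => ?_⟩
    rw [map_mul, MvPolynomial.eval_X, abs_mul]
    calc |MvPolynomial.eval z p| * |z i| ≤ (C₁ * (H : ℤ) ^ k₁) * H :=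
          mul_le_mul (h₁ H hH z hz) (hz i) (abs_nonneg _) (by positivity)
      _ = _ := by ring

/-- Schwartz-Zippel for the symmetric box -/
lemma zc (P : MvPolynomial ι ℤ) (hP : P ≠ 0) : ∃ C : ℕ, ∀ H : ℕ, 1 ≤ H →
    ((Fintype.piFinset (fun _ : ι => Icc (-(H : ℤ)) H)).filter (fun z => MvPolynomial.eval z P = 0)).card ≤
      C * H ^ (Fintype.card ι - 1) := by
  set N := Fintype.card ι with hN
  set e : ι ≃ Fin N := Fintype.equivFin ι with he
  set P' := MvPolynomial.rename e P with hP'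
  have hP0 : P' ≠ 0 := fun h => hP (MvPolynomial.rename_injective e e.injective (by rw [← hP', h, map_zero]))
  refine ⟨P'.totalDegree * 3 ^ (N - 1), fun H hH => ?_⟩
  have h1 := MvPolynomial.schwartz_zippel_totalDegree hP0 (Icc (-(H : ℤ)) H)
  have hc : (Icc (-(H : ℤ)) H).card = 2 * H + 1 := by rw [Int.card_Icc]; omega
  rw [hc] at h1
  have h2 : ((Fintype.piFinset (fun _ : ι => Icc (-(H : ℤ)) H)).filter
      (fun z => MvPolynomial.eval z P = 0)).card =
      ((Fintype.piFinset (fun _ : Fin N => Icc (-(H : ℤ)) H)).filter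
      (fun z => MvPolynomial.eval z P' = 0)).card := by
    apply card_bij' (fun z _ => fun j => z (e.symm j)) (fun z _ => fun i => z (e i))
    · intro z hz
      rw [mem_filter, Fintype.mem_piFinset] at hz ⊢
      refine ⟨fun j => hz.1 _, ?_⟩
      have hz2 : (fun j => z (e.symm j)) ∘ e = z := by funext i; simp
      rw [hP', MvPolynomial.eval_rename, hz2]
      exact hz.2
    · intro z hz
      rw [mem_filter, Fintype.mem_piFinset] at hz ⊢
      refine ⟨fun j => hz.1 _, ?_⟩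
      have := hz.2
      rw [hP', MvPolynomial.eval_rename] at this
      exact this
    · intro z _; funext i; simp
    · intro z _; funext i; simp
  rw [h2]
  set c := ((Fintype.piFinset (fun _ : Fin N => Icc (-(H : ℤ)) H)).filter
      (fun z => MvPolynomial.eval z P' = 0)).card with hcdef
  have h3 : (c : ℚ) / (2 * H + 1) ^ N ≤ P'.totalDegree / (2 * H + 1) := by
    have : ((c : ℚ≥0) : ℚ) / ((2 * H + 1 : ℕ) : ℚ≥0) ^ N ≤ (P'.totalDegree : ℚ≥0) / ((2 * H + 1 : ℕ) : ℚ≥0) := by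
      exact_mod_cast h1
    push_cast at this
    exact this
  rcases Nat.eq_zero_or_pos N with h0 | hpos
  · have e0 : N - 1 = 0 := by omega
    have e1 : (2 * (H : ℚ) + 1) ^ N = 1 := by rw [h0, pow_zero]
    rw [e1, div_one] at h3
    rw [e0, pow_zero, pow_zero, mul_one, mul_one]
    have h4 : (c : ℚ) ≤ P'.totalDegree := h3.trans (div_le_self (by positivity) (by
      have : (0 : ℚ) ≤ H := by positivity
      linarith))
    exact_mod_cast h4
  · have h4 : (c : ℚ) ≤ P'.totalDegree * (2 * H + 1) ^ (N - 1) := by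
      rw [div_le_div_iff₀ (by positivity) (by positivity)] at h3
      have h5 : ((2 * (H : ℚ) + 1)) ^ N = (2 * H + 1) ^ (N - 1) * (2 * H + 1) := by
        rw [← pow_succ]; congr 1; omega
      rw [h5, ← mul_assoc] at h3
      exact le_of_mul_le_mul_right h3 (by positivity)
    have h5 : (c : ℚ) ≤ P'.totalDegree * 3 ^ (N - 1) * (H : ℚ) ^ (N - 1) := by
      refine h4.trans ?_
      rw [mul_assoc, ← mul_pow]
      have hH' : (1 : ℚ) ≤ H := by exact_mod_cast hH
      gcongr
      linarith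
    exact_mod_cast h5

/-- few large primes divide a nonzero integer of polynomial size -/
lemma few_primes (D : ℤ) (hD : D ≠ 0) (H C k : ℕ) (hH : C < H) (hb : |D| ≤ C * (H : ℤ) ^ k) :
    (D.natAbs.primeFactors.filter (fun p => H < p)).card ≤ k := by
  set T := D.natAbs.primeFactors.filter (fun p => H < p) with hT
  have h1 : ∏ p ∈ T, p ∣ D.natAbs :=
    (Finset.prod_dvd_prod_of_subset _ _ _ (filter_subset _ _)).trans (Nat.prod_primeFactors_dvd _)
  have h2 : ∏ p ∈ T, p ≤ D.natAbs := Nat.le_of_dvd (Int.natAbs_pos.2 hD) h1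
  have h3 : H ^ T.card ≤ ∏ p ∈ T, p := by
    rw [← prod_const]
    exact Finset.prod_le_prod' fun p hp => (mem_filter.1 hp).2.le
  have h4 : D.natAbs ≤ C * H ^ k := by
    zify
    exact hb
  have h5 : H ^ T.card < H ^ (k + 1) := by
    calc H ^ T.card ≤ C * H ^ k := h3.trans (h2.trans h4)
      _ < H * H ^ k := Nat.mul_lt_mul_of_pos_right hH (pow_pos (by omega) k)
      _ = _ := by ring
  have h6 : 1 < H := by
    by_contra hc
    have hH1 : H = 1 := by omega
    rw [hH1] at h5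
    simp at h5
  have h7 := (Nat.pow_lt_pow_iff_right h6).1 h5
  omega

/-- sets with small fibres over the vectors with one coordinate erased -/
lemma fib (i₀ : ι) (H k : ℕ) (A : Finset (ι → ℤ)) (hA : ∀ z ∈ A, ∀ i, |z i| ≤ H)
    (hf : ∀ w : ι → ℤ, (A.filter (fun z => Function.update z i₀ 0 = w)).card ≤ k) :
    A.card ≤ k * (2 * H + 1) ^ (Fintype.card ι - 1) := by
  have h1 := card_le_mul_card_image (f := fun z : ι → ℤ => Function.update z i₀ 0) A k
    (fun w _ => hf w)
  refine h1.trans (Nat.mul_le_mul_left k ?_)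
  have h2 : A.image (fun z : ι → ℤ => Function.update z i₀ 0) ⊆
      Fintype.piFinset (fun i => if i = i₀ then ({0} : Finset ℤ) else Icc (-(H : ℤ)) H) := by
    intro w hw
    obtain ⟨z, hz, rfl⟩ := mem_image.1 hw
    rw [Fintype.mem_piFinset]
    intro i
    by_cases hi : i = i₀
    · subst hi; simp
    · rw [if_neg hi, Function.update_of_ne hi, mem_Icc]
      exact abs_le.1 (hA z hz i)
  refine (card_le_card h2).trans ?_
  rw [Fintype.card_piFinset]
  have h3 : ∀ i : ι, (if i = i₀ then ({0} : Finset ℤ) else Icc (-(H : ℤ)) H).card =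
      if i = i₀ then 1 else 2 * H + 1 := by
    intro i
    split_ifs
    · simp
    · rw [Int.card_Icc]; omega
  rw [prod_congr rfl fun i _ => h3 i, prod_ite, prod_const_one, one_mul, prod_const]
  have h4 : (univ.filter (fun i => ¬ i = i₀)).card = Fintype.card ι - 1 := by
    rw [filter_not, card_sdiff_of_subset (filter_subset _ _), Finset.filter_eq']
    simp
  rw [h4]

end gen

end Pool.Agent.R492.Bez
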