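import Mathlib
import Pool.Agent.R492.Bez.Field

/-!
# Counting pairs of polynomials over a finite field with a common divisor of degree at least two
-/

set_option autoImplicit false

namespace Pool.Agent.R492.Bez

open Polynomial

variable {K : Type*} [Field K]

/-- pairs with formal degrees `m`, `n`, not both leading coefficients zero -/
def AA (K : Type*) [Field K] (m n : ℕ) : Set (K[X] × K[X]) :=
  {w | w.1.degree ≤ (m : WithBot ℕ) ∧ w.2.degree ≤ (n : WithBot ℕ) ∧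
    (w.1.degree = (m : WithBot ℕ) ∨ w.2.degree = (n : WithBot ℕ))}

/-- those with a common divisor of degree at least two -/
def BB (K : Type*) [Field K] (m n : ℕ) : Set (K[X] × K[X]) :=
  {w | w ∈ AA K m n ∧ ∃ h : K[X], h ∣ w.1 ∧ h ∣ w.2 ∧ 2 ≤ h.natDegree}

lemma exists_dec (F G : K[X]) (h : ¬ (F = 0 ∧ G = 0)) :
    ∃ u v D : K[X], D.Monic ∧ IsCoprime u v ∧ u * D = F ∧ v * D = G := by
  classical
  set d := EuclideanDomain.gcd F G with hd
  have hd0 : d ≠ 0 := fun h0 => h (EuclideanDomain.gcd_eq_zero_iff.1 h0)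
  obtain ⟨u, hu⟩ := EuclideanDomain.gcd_dvd_left F G
  obtain ⟨v, hv⟩ := EuclideanDomain.gcd_dvd_right F G
  rw [← hd] at hu hv
  have hl : d.leadingCoeff ≠ 0 := leadingCoeff_ne_zero.2 hd0
  have hb := EuclideanDomain.gcd_eq_gcd_ab F G
  rw [← hd] at hb
  have hcc : C d.leadingCoeff * C (d.leadingCoeff⁻¹) = (1 : K[X]) := by
    rw [← C_mul, mul_inv_cancel₀ hl, C_1]
  refine ⟨C d.leadingCoeff * u, C d.leadingCoeff * v, d * C (d.leadingCoeff⁻¹),
    monic_mul_leadingCoeff_inv hd0, ?_, ?_, ?_⟩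
  · refine ⟨C (d.leadingCoeff⁻¹) * EuclideanDomain.gcdA F G,
      C (d.leadingCoeff⁻¹) * EuclideanDomain.gcdB F G, ?_⟩
    have h1 : d * 1 = d * (u * EuclideanDomain.gcdA F G + v * EuclideanDomain.gcdB F G) := by
      calc d * 1 = F * EuclideanDomain.gcdA F G + G * EuclideanDomain.gcdB F G := by rw [mul_one]; exact hb
        _ = (d * u) * EuclideanDomain.gcdA F G + (d * v) * EuclideanDomain.gcdB F G := by rw [← hu, ← hv]
        _ = _ := by ring
    have h2 := mul_left_cancel₀ hd0 h1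
    linear_combination (u * EuclideanDomain.gcdA F G + v * EuclideanDomain.gcdB F G) * hcc - h2
  · rw [hu]
    linear_combination (d * u) * hcc
  · rw [hv]
    linear_combination (d * v) * hcc

lemma dec_dvd {u v u' v' D D' : K[X]} (hc : IsCoprime u' v') (h1 : u * D = u' * D')
    (h2 : v * D = v' * D') : D ∣ D' := by
  obtain ⟨a, b, hab⟩ := hc
  refine ⟨a * u + b * v, ?_⟩
  linear_combination (-D') * hab - a * h1 - b * h2

lemma dec_unique {u v u' v' D D' : K[X]} (hD : D.Monic) (hD' : D'.Monic) (hc : IsCoprime u v)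
    (hc' : IsCoprime u' v') (h1 : u * D = u' * D') (h2 : v * D = v' * D') :
    u = u' ∧ v = v' ∧ D = D' := by
  have h3 : D ∣ D' := dec_dvd hc' h1 h2
  have h4 : D' ∣ D := dec_dvd hc h1.symm h2.symm
  have h5 : D = D' := eq_of_monic_of_associated hD hD' (associated_of_dvd_dvd h3 h4)
  subst h5
  exact ⟨mul_right_cancel₀ hD.ne_zero h1, mul_right_cancel₀ hD.ne_zero h2, rfl⟩

/-- parameters of the pairs in `AA` -/
def Tr1 (K : Type*) [Field K] (m n : ℕ) : Type _ :=
  {t : K[X] × K[X] × K[X] // t.2.2.Monic ∧ IsCoprime t.1 t.2.1 ∧ (t.1 * t.2.2, t.2.1 * t.2.2) ∈ AA K m n}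

/-- parameters of the pairs in `BB` -/
def Tr2 (K : Type*) [Field K] (m n : ℕ) : Type _ :=
  {t : K[X] × K[X] × K[X] // t.2.2.Monic ∧ IsCoprime t.1 t.2.1 ∧ (t.1 * t.2.2, t.2.1 * t.2.2) ∈ AA K m n ∧
    2 ≤ t.2.2.natDegree}

lemma AA_ne {m n : ℕ} {w : K[X] × K[X]} (hw : w ∈ AA K m n) : ¬ (w.1 = 0 ∧ w.2 = 0) := by
  rintro ⟨h1, h2⟩
  obtain ⟨-, -, h3⟩ := hw
  rw [h1, h2, degree_zero] at h3
  rcases h3 with h3 | h3 <;> exact absurd h3 (WithBot.bot_ne_coe)

lemma card_Tr1 (m n : ℕ) : Nat.card (Tr1 K m n) = (AA K m n).ncard := by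
  rw [← Nat.card_coe_set_eq]
  apply Nat.card_eq_of_bijective (fun t : Tr1 K m n => (⟨_, t.2.2.2⟩ : AA K m n))
  constructor
  · rintro ⟨⟨u, v, D⟩, h1, h2, h3⟩ ⟨⟨u', v', D'⟩, h1', h2', h3'⟩ h
    simp only [Subtype.mk.injEq, Prod.mk.injEq] at h
    obtain ⟨e1, e2, e3⟩ := dec_unique h1 h1' h2 h2' h.1 h.2
    simp only at e1 e2 e3
    subst e1 e2 e3
    rfl
  · rintro ⟨⟨F, G⟩, hw⟩
    obtain ⟨u, v, D, hD, hc, rfl, rfl⟩ := exists_dec F G (AA_ne hw)
    exact ⟨⟨(u, v, D), hD, hc, hw⟩, rfl⟩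

lemma card_Tr2 (m n : ℕ) : Nat.card (Tr2 K m n) = (BB K m n).ncard := by
  rw [← Nat.card_coe_set_eq]
  apply Nat.card_eq_of_bijective (fun t : Tr2 K m n => (⟨_, t.2.2.2.1, t.1.2.2,
    dvd_mul_left _ _, dvd_mul_left _ _, t.2.2.2.2⟩ : BB K m n))
  constructor
  · rintro ⟨⟨u, v, D⟩, h1, h2, h3, h4⟩ ⟨⟨u', v', D'⟩, h1', h2', h3', h4'⟩ h
    have hh := congrArg Subtype.val h
    simp only [Prod.mk.injEq] at hh
    obtain ⟨e1, e2, e3⟩ := dec_unique h1 h1' h2 h2' hh.1 hh.2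
    simp only at e1 e2 e3
    subst e1 e2 e3
    rfl
  · rintro ⟨⟨F, G⟩, hw, h, hh1, hh2, hh3⟩
    obtain ⟨u, v, D, hD, hc, rfl, rfl⟩ := exists_dec F G (AA_ne hw)
    refine ⟨⟨(u, v, D), hD, hc, hw, ?_⟩, rfl⟩
    -- `h` divides `D`
    obtain ⟨a, b, hab⟩ := hc
    have h5 : h ∣ D := by
      have : D = a * (u * D) + b * (v * D) := by linear_combination (-D) * hab
      rw [this]
      exact dvd_add (hh1.mul_left a) (hh2.mul_left b)
    exact hh3.trans (natDegree_le_of_dvd h5 hD.ne_zero)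

lemma deg_shift (D' : K[X]) (hD : D'.Monic) (r s : K) :
    (D' * X ^ 2 + C r * X + C s).Monic ∧ (D' * X ^ 2 + C r * X + C s).degree = D'.degree + 2 ∧
      2 ≤ (D' * X ^ 2 + C r * X + C s).natDegree := by
  have h1 : (D' * X ^ 2).Monic := hD.mul (monic_X_pow 2)
  have h2 : (C r * X + C s).degree < (D' * X ^ 2).degree := by
    refine lt_of_le_of_lt degree_linear_le ?_
    rw [degree_mul, degree_X_pow, degree_eq_natDegree hD.ne_zero]
    exact_mod_cast (by omega : 1 < D'.natDegree + 2)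
  have h3 : (D' * X ^ 2 + C r * X + C s) = D' * X ^ 2 + (C r * X + C s) := by ring
  rw [h3]
  have h4 : (D' * X ^ 2 + (C r * X + C s)).degree = D'.degree + 2 := by
    rw [degree_add_eq_left_of_degree_lt h2, degree_mul, degree_X_pow]
    rfl
  refine ⟨h1.add_of_left h2, h4, ?_⟩
  apply le_natDegree_of_coe_le_degree
  rw [h4, degree_eq_natDegree hD.ne_zero]
  exact_mod_cast (by omega : 2 ≤ D'.natDegree + 2)

lemma deg_iff (u D D' : K[X]) (hD' : D' ≠ 0) (hD : D.degree = D'.degree + 2) (m : ℕ) :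
    ((u * D).degree ≤ ((m + 2 : ℕ) : WithBot ℕ) ↔ (u * D').degree ≤ (m : WithBot ℕ)) ∧
    ((u * D).degree = ((m + 2 : ℕ) : WithBot ℕ) ↔ (u * D').degree = (m : WithBot ℕ)) := by
  rw [degree_mul, degree_mul, hD, degree_eq_natDegree hD']
  rcases eq_or_ne u 0 with rfl | hu
  · refine ⟨by simp, ?_⟩
    simp only [degree_zero, WithBot.bot_add]
    constructor <;> intro h <;> exact absurd h (WithBot.bot_ne_coe)
  · rw [degree_eq_natDegree hu]
    constructor <;> norm_cast <;> omega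

lemma AA_iff (u v D D' : K[X]) (hD' : D' ≠ 0) (hD : D.degree = D'.degree + 2) (m n : ℕ) :
    (u * D, v * D) ∈ AA K (m + 2) (n + 2) ↔ (u * D', v * D') ∈ AA K m n := by
  unfold AA
  simp only [Set.mem_ofPred_eq]
  rw [(deg_iff u D D' hD' hD m).1, (deg_iff u D D' hD' hD m).2, (deg_iff v D D' hD' hD n).1,
    (deg_iff v D D' hD' hD n).2]

lemma card_Tr (m n : ℕ) : Nat.card (Tr2 K (m + 2) (n + 2)) = Nat.card (Tr1 K m n × (K × K)) := by
  symm
  apply Nat.card_eq_of_bijective (fun t : Tr1 K m n × (K × K) =>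
    (⟨(t.1.1.1, t.1.1.2.1, t.1.1.2.2 * X ^ 2 + C t.2.1 * X + C t.2.2),
      (deg_shift _ t.1.2.1 _ _).1, t.1.2.2.1,
      (AA_iff _ _ _ _ t.1.2.1.ne_zero (deg_shift _ t.1.2.1 _ _).2.1 m n).2 t.1.2.2.2,
      (deg_shift _ t.1.2.1 _ _).2.2⟩ : Tr2 K (m + 2) (n + 2)))
  constructor
  · rintro ⟨⟨⟨u, v, D⟩, h1, h2, h3⟩, r, s⟩ ⟨⟨⟨u', v', D'⟩, h1', h2', h3'⟩, r', s'⟩ h
    simp only [Subtype.mk.injEq, Prod.mk.injEq] at h
    obtain ⟨e1, e2, e3⟩ := h
    subst e1 e2
    have hs : s = s' := by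
      have := congrArg (fun P => P.coeff 0) e3
      simpa using this
    have hr : r = r' := by
      have := congrArg (fun P => P.coeff 1) e3
      simpa [coeff_X_pow, coeff_mul_X_pow', coeff_C] using this
    subst hs hr
    have hD : D = D' := by
      have : D * X ^ 2 = D' * X ^ 2 := by linear_combination e3
      exact mul_right_cancel₀ (pow_ne_zero 2 X_ne_zero) this
    subst hD
    rfl
  · rintro ⟨⟨u, v, D⟩, h1, h2, h3, h4⟩
    change 2 ≤ D.natDegree at h4
    set D' := D.divX.divX with hD'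
    have hDD : D' * X ^ 2 + C (D.coeff 1) * X + C (D.coeff 0) = D := by
      have e1 := divX_mul_X_add D
      have e2 := divX_mul_X_add D.divX
      rw [coeff_divX] at e2
      calc D' * X ^ 2 + C (D.coeff 1) * X + C (D.coeff 0)
          = (D.divX.divX * X + C (D.coeff (0 + 1))) * X + C (D.coeff 0) := by rw [hD', zero_add]; ring
        _ = D := by rw [e2, e1]
    have hm : D'.Monic := by
      have h5 : D'.coeff (D.natDegree - 2) = 1 := by
        rw [hD', coeff_divX, coeff_divX, show D.natDegree - 2 + 1 + 1 = D.natDegree by omega]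
        exact h1
      apply monic_of_natDegree_le_of_coeff_eq_one (D.natDegree - 2) _ h5
      rw [hD', natDegree_divX_eq_natDegree_tsub_one, natDegree_divX_eq_natDegree_tsub_one]
      omega
    refine ⟨(⟨⟨(u, v, D'), hm, h2, ?_⟩, (D.coeff 1, D.coeff 0)⟩), ?_⟩
    · have h5 := (deg_shift D' hm (D.coeff 1) (D.coeff 0)).2.1
      rw [hDD] at h5
      exact (AA_iff u v D D' hm.ne_zero h5 m n).1 h3
    · apply Subtype.ext
      simp only [Prod.mk.injEq, true_and]
      exact hDD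

lemma card_BB [Fintype K] (m n : ℕ) :
    (BB K (m + 2) (n + 2)).ncard = (AA K m n).ncard * Fintype.card K ^ 2 := by
  rw [← card_Tr2, card_Tr, Nat.card_prod, card_Tr1, Nat.card_prod, Nat.card_eq_fintype_card, sq]

lemma card_deg [Fintype K] (k : ℕ) : {F : K[X] | F.degree < (k : WithBot ℕ)}.ncard = Fintype.card K ^ k := by
  have h1 : {F : K[X] | F.degree < (k : WithBot ℕ)} = ((degreeLT K k : Submodule K K[X]) : Set K[X]) := by
    ext F
    simp [mem_degreeLT]
  rw [h1, ← Nat.card_coe_set_eq]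
  change Nat.card (degreeLT K k) = _
  rw [Nat.card_congr (degreeLTEquiv K k).toEquiv, Nat.card_fun, Nat.card_eq_fintype_card,
    Nat.card_eq_fintype_card, Fintype.card_fin]

lemma finite_deg [Finite K] (k : ℕ) : {F : K[X] | F.degree < (k : WithBot ℕ)}.Finite := by
  have h1 : {F : K[X] | F.degree < (k : WithBot ℕ)} = ((degreeLT K k : Submodule K K[X]) : Set K[X]) := by
    ext F
    simp [mem_degreeLT]
  rw [h1]
  have : Finite (degreeLT K k) := Finite.of_equiv _ (degreeLTEquiv K k).toEquiv.symm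
  exact Set.toFinite _

lemma card_AA [Fintype K] (m n : ℕ) : (AA K m n).ncard + Fintype.card K ^ (m + n) =
    Fintype.card K ^ (m + n + 2) := by
  have h1 : AA K m n = ({F : K[X] | F.degree < ((m + 1 : ℕ) : WithBot ℕ)} ×ˢ
      {F : K[X] | F.degree < ((n + 1 : ℕ) : WithBot ℕ)}) \
      ({F : K[X] | F.degree < (m : WithBot ℕ)} ×ˢ {F : K[X] | F.degree < (n : WithBot ℕ)}) := by
    ext ⟨F, G⟩
    simp only [AA, Set.mem_ofPred_eq, Set.mem_sdiff, Set.mem_prod]
    have h2 : ∀ (F : K[X]) (m : ℕ), F.degree < ((m + 1 : ℕ) : WithBot ℕ) ↔ F.degree ≤ (m : WithBot ℕ) := by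
      intro F m
      rcases eq_or_ne F 0 with rfl | hF
      · simp [WithBot.bot_lt_coe]
      · rw [degree_eq_natDegree hF]; norm_cast; omega
    rw [h2, h2]
    constructor
    · rintro ⟨a, b, c⟩
      refine ⟨⟨a, b⟩, fun hc => ?_⟩
      rcases c with c | c
      · exact absurd c hc.1.ne
      · exact absurd c hc.2.ne
    · rintro ⟨⟨a, b⟩, c⟩
      refine ⟨a, b, ?_⟩
      by_contra hc
      push Not at hc
      exact c ⟨lt_of_le_of_ne a hc.1, lt_of_le_of_ne b hc.2⟩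
  have h3 : ({F : K[X] | F.degree < (m : WithBot ℕ)} ×ˢ {F : K[X] | F.degree < (n : WithBot ℕ)}) ⊆
      ({F : K[X] | F.degree < ((m + 1 : ℕ) : WithBot ℕ)} ×ˢ
      {F : K[X] | F.degree < ((n + 1 : ℕ) : WithBot ℕ)}) := by
    apply Set.prod_mono
    · intro F hF
      exact lt_trans (show F.degree < _ from hF) (by exact_mod_cast Nat.lt_succ_self m)
    · intro F hF
      exact lt_trans (show F.degree < _ from hF) (by exact_mod_cast Nat.lt_succ_self n)
  have h4 := Set.ncard_sdiff_add_ncard_of_subset h3 ((finite_deg (m + 1)).prod (finite_deg (n + 1)))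
  rw [← h1, Set.ncard_prod, Set.ncard_prod, card_deg, card_deg, card_deg, card_deg] at h4
  rw [pow_add, h4]
  ring

lemma AA_finite [Finite K] (m n : ℕ) : (AA K m n).Finite := by
  refine ((finite_deg (m + 1)).prod (finite_deg (n + 1))).subset ?_
  rintro ⟨F, G⟩ ⟨h1, h2, -⟩
  exact ⟨lt_of_le_of_lt h1 (by exact_mod_cast Nat.lt_succ_self m),
    lt_of_le_of_lt h2 (by exact_mod_cast Nat.lt_succ_self n)⟩

/-- the good pairs -/
def GG (K : Type*) [Field K] (m n : ℕ) : Set (K[X] × K[X]) :=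
  {w | w.1.degree ≤ (m : WithBot ℕ) ∧ w.2.degree ≤ (n : WithBot ℕ) ∧ Good m n w.1 w.2}

lemma GG_eq (m n : ℕ) : GG K m n = AA K m n \ BB K m n := by
  ext ⟨F, G⟩
  simp only [GG, Good, AA, BB, Set.mem_sdiff, Set.mem_ofPred_eq]
  have h2 : ∀ (F : K[X]) (m : ℕ), F.degree ≤ (m : WithBot ℕ) → (F.coeff m = 0 ↔ ¬ F.degree = (m : WithBot ℕ)) := by
    intro F m hF
    constructor
    · intro h0 h1
      exact (coeff_ne_zero_of_eq_degree h1) h0
    · intro h1
      exact coeff_eq_zero_of_degree_lt (lt_of_le_of_ne hF h1)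
  constructor
  · rintro ⟨a, b, c, d⟩
    rw [h2 F m a, h2 G n b] at c
    refine ⟨⟨a, b, by tauto⟩, ?_⟩
    rintro ⟨-, h, h1, h3, h4⟩
    have := d h h1 h3
    omega
  · rintro ⟨⟨a, b, c⟩, d⟩
    refine ⟨a, b, ?_, ?_⟩
    · rw [h2 F m a, h2 G n b]; tauto
    · intro h h1 h3
      by_contra h4
      exact d ⟨⟨a, b, c⟩, h, h1, h3, by omega⟩

/-- The number of good pairs is `q ^ (m + n - 2) (q² - 1)²`. -/
theorem card_GG [Fintype K] (m n : ℕ) :
    (GG K (m + 2) (n + 2)).ncard = Fintype.card K ^ (m + n + 2) * (Fintype.card K ^ 2 - 1) ^ 2 := by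
  have hq : 1 ≤ Fintype.card K ^ 2 := Nat.one_le_pow _ _ Fintype.card_pos
  have h1 : BB K (m + 2) (n + 2) ⊆ AA K (m + 2) (n + 2) := fun w hw => hw.1
  have h2 := Set.ncard_sdiff_add_ncard_of_subset h1 (AA_finite _ _)
  rw [← GG_eq, card_BB] at h2
  have h3 := card_AA (K := K) (m + 2) (n + 2)
  have h4 := card_AA (K := K) m n
  obtain ⟨s, hs⟩ : ∃ s, Fintype.card K ^ 2 = s + 1 := ⟨Fintype.card K ^ 2 - 1, by omega⟩
  have e1 : Fintype.card K ^ (m + 2 + (n + 2) + 2) = Fintype.card K ^ (m + n) * (s + 1) ^ 3 := by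
    rw [← hs, ← pow_mul, ← pow_add]; congr 1; ring
  have e2 : Fintype.card K ^ (m + 2 + (n + 2)) = Fintype.card K ^ (m + n) * (s + 1) ^ 2 := by
    rw [← hs, ← pow_mul, ← pow_add]; congr 1; ring
  have e3 : Fintype.card K ^ (m + n + 2) = Fintype.card K ^ (m + n) * (s + 1) := by
    rw [← hs, ← pow_add]
  rw [e1, e2] at h3
  rw [e3] at h4
  rw [e3, hs, Nat.add_sub_cancel]
  rw [hs] at h2
  have h5 : (AA K m n).ncard = Fintype.card K ^ (m + n) * s := by
    have : (AA K m n).ncard + Fintype.card K ^ (m + n) = Fintype.card K ^ (m + n) * s +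
      Fintype.card K ^ (m + n) := by rw [h4]; ring
    omega
  rw [h5] at h2
  have h6 : (GG K (m + 2) (n + 2)).ncard + (Fintype.card K ^ (m + n) * s * (s + 1) +
      Fintype.card K ^ (m + n) * (s + 1) ^ 2) =
      Fintype.card K ^ (m + n) * (s + 1) * s ^ 2 + (Fintype.card K ^ (m + n) * s * (s + 1) +
      Fintype.card K ^ (m + n) * (s + 1) ^ 2) := by
    calc _ = ((GG K (m + 2) (n + 2)).ncard + Fintype.card K ^ (m + n) * s * (s + 1)) +
          Fintype.card K ^ (m + n) * (s + 1) ^ 2 := by ring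
      _ = Fintype.card K ^ (m + n) * (s + 1) ^ 3 := by rw [h2, h3]
      _ = _ := by ring
  exact Nat.add_right_cancel h6

end Pool.Agent.R492.Bez
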