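import Mathlib
import Pool.Agent.R492.Bez.Count
import Pool.Agent.R492.Bez.Big
import Pool.Agent.R492.Bez.Box

/-!
# The density of the pairs that satisfy finitely many local conditions
-/

set_option autoImplicit false

namespace Pool.Agent.R492.Bez

open Polynomial Finset Filter Topology

variable {m n : ℕ}

/-- the leading coefficients -/
def JJ (m n : ℕ) : Sg m n → Bool
  | Sum.inl i => i = Fin.last m
  | Sum.inr j => j = Fin.last n

/-- the local condition at `p` -/
def GoodZ (p : ℕ) [Fact p.Prime] (z : Sg m n → ℤ) : Prop :=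
  Good m n ((ff z).map (Int.castRingHom (ZMod p))) ((gg z).map (Int.castRingHom (ZMod p)))

lemma ff_map {R S : Type*} [CommRing R] [CommRing S] (φ : R →+* S) (z : Sg m n → R) :
    (ff z).map φ = ff (fun i => φ (z i)) := pol_map φ _

lemma gg_map {R S : Type*} [CommRing R] [CommRing S] (φ : R →+* S) (z : Sg m n → R) :
    (gg z).map φ = gg (fun i => φ (z i)) := pol_map φ _

lemma goodZ_iff (p : ℕ) [Fact p.Prime] (z : Sg m n → ℤ) :
    GoodZ p z ↔ Good m n (ff (fun i => (z i : ZMod p))) (gg (fun i => (z i : ZMod p))) := by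
  unfold GoodZ
  rw [ff_map, gg_map]
  rfl

open Classical in
/-- the good residue vectors -/
noncomputable def Gp (m n p : ℕ) [Fact p.Prime] : Finset (Sg m n → ZMod p) :=
  univ.filter (fun r => Good m n (ff r) (gg r))

lemma card_Gp (m n p : ℕ) [Fact p.Prime] :
    (Gp (m + 2) (n + 2) p).card = p ^ (m + n + 2) * (p ^ 2 - 1) ^ 2 := by
  classical
  have h1 := card_GG (K := ZMod p) m n
  rw [ZMod.card] at h1
  rw [← h1]
  have h2 : GG (ZMod p) (m + 2) (n + 2) =
      (fun r : Sg (m + 2) (n + 2) → ZMod p => (ff r, gg r)) '' ((Gp (m + 2) (n + 2) p : Finset _) : Set _) := by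
    ext ⟨F, G⟩
    simp only [GG, Set.mem_ofPred_eq, Set.mem_image, Finset.mem_coe, Gp, Finset.mem_filter, Finset.mem_univ,
      true_and, Prod.mk.injEq]
    constructor
    · rintro ⟨h3, h4, h5⟩
      have e1 : ff (Sum.elim (fun i : Fin (m + 2 + 1) => F.coeff i) (fun i : Fin (n + 2 + 1) => G.coeff i)) = F :=
        pol_of F (natDegree_le_of_degree_le h3)
      have e2 : gg (Sum.elim (fun i : Fin (m + 2 + 1) => F.coeff i) (fun i : Fin (n + 2 + 1) => G.coeff i)) = G :=
        pol_of G (natDegree_le_of_degree_le h4)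
      refine ⟨Sum.elim (fun i => F.coeff i) (fun i => G.coeff i), ?_, e1, e2⟩
      rw [e1, e2]; exact h5
    · rintro ⟨r, h3, rfl, rfl⟩
      exact ⟨degree_le_of_natDegree_le (pol_natDegree _), degree_le_of_natDegree_le (pol_natDegree _), h3⟩
  rw [h2, Set.ncard_image_of_injective, Set.ncard_coe_finset]
  intro r s h
  simp only [Prod.mk.injEq] at h
  have e1 := pol_inj h.1
  have e2 := pol_inj h.2
  funext i
  rcases i with i | i
  · exact congrFun e1 i
  · exact congrFun e2 i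

lemma card_Sg (m n : ℕ) : Fintype.card (Sg m n) = m + n + 2 := by
  simp only [Sg, Fintype.card_sum, Fintype.card_fin]; ring

lemma ratio_Gp (m n p : ℕ) [hp : Fact p.Prime] :
    ((Gp (m + 2) (n + 2) p).card : ℝ) / (p : ℝ) ^ (Fintype.card (Sg (m + 2) (n + 2))) =
      (1 - 1 / (p : ℝ) ^ 2) ^ 2 := by
  have hp0 : (p : ℝ) ≠ 0 := by exact_mod_cast hp.out.ne_zero
  rw [card_Gp, card_Sg]
  have h1 : 1 ≤ p ^ 2 := Nat.one_le_pow _ _ hp.out.pos
  push_cast [Nat.cast_sub h1]
  have h2 : (p : ℝ) ^ (m + 2 + (n + 2) + 2) = (p : ℝ) ^ (m + n + 2) * ((p : ℝ) ^ 2) ^ 2 := by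
    rw [← pow_mul, ← pow_add]; congr 1; ring
  rw [h2]
  field_simp

/-- The Chinese remainder theorem. -/
lemma crt (m n : ℕ) (S : Finset ℕ) (hS : ∀ p ∈ S, p.Prime) : ∃ M : ℕ, 0 < M ∧
    (∀ q : ℕ, q.Prime → q ∣ M → q ∈ S) ∧ ∃ G : Finset (Sg (m + 2) (n + 2) → ZMod M),
      (∀ z : Sg (m + 2) (n + 2) → ℤ, (fun i => (z i : ZMod M)) ∈ G ↔
        ∀ p ∈ S, ∀ _ : Fact p.Prime, GoodZ p z) ∧
      (G.card : ℝ) / (M : ℝ) ^ (Fintype.card (Sg (m + 2) (n + 2))) = ∏ p ∈ S, (1 - 1 / (p : ℝ) ^ 2) ^ 2 := by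
  classical
  induction S using Finset.induction_on with
  | empty =>
    refine ⟨1, one_pos, fun q hq h => ?_, univ, fun z => ?_, ?_⟩
    · exact absurd (Nat.dvd_one.1 h) hq.one_lt.ne'
    · exact ⟨fun _ p hp => absurd hp (Finset.notMem_empty p), fun _ => mem_univ _⟩
    · simp only [prod_empty, Finset.card_univ, Nat.cast_one, one_pow, div_one]
      rw [Fintype.card_fun, ZMod.card, one_pow, Nat.cast_one]
  | insert p S hpS ih =>
    obtain ⟨M, hM, hMS, G, hG, hGc⟩ := ih fun q hq => hS q (mem_insert_of_mem hq)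
    have hp : p.Prime := hS p (mem_insert_self _ _)
    have hpf : Fact p.Prime := ⟨hp⟩
    have hcop : Nat.Coprime p M := (Nat.Prime.coprime_iff_not_dvd hp).2 fun h => hpS (hMS p hp h)
    have hMn : NeZero M := ⟨hM.ne'⟩
    have hpM : NeZero (p * M) := ⟨(Nat.mul_pos hp.pos hM).ne'⟩
    set e := ZMod.chineseRemainder hcop with he
    refine ⟨p * M, Nat.mul_pos hp.pos hM, ?_, univ.filter (fun r => (fun i => (e (r i)).1) ∈ Gp (m + 2) (n + 2) p ∧
      (fun i => (e (r i)).2) ∈ G), ?_, ?_⟩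
    · intro q hq hqd
      rcases (Nat.Prime.dvd_mul hq).1 hqd with h | h
      · rw [(Nat.prime_dvd_prime_iff_eq hq hp).1 h]; exact mem_insert_self _ _
      · exact mem_insert_of_mem (hMS q hq h)
    · intro z
      rw [mem_filter]
      have h1 : (fun i => (e ((z i : ZMod (p * M)))).1) = fun i => (z i : ZMod p) := by
        funext i; rw [map_intCast]; rfl
      have h2 : (fun i => (e ((z i : ZMod (p * M)))).2) = fun i => (z i : ZMod M) := by
        funext i; rw [map_intCast]; rfl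
      rw [h1, h2, hG]
      simp only [mem_univ, true_and, Gp, mem_filter]
      rw [← goodZ_iff]
      constructor
      · rintro ⟨a, b⟩ q hq hqf
        rcases mem_insert.1 hq with h | h
        · subst h; exact a
        · exact b q h hqf
      · intro h
        exact ⟨h p (mem_insert_self _ _) hpf, fun q hq hqf => h q (mem_insert_of_mem hq) hqf⟩
    · rw [prod_insert hpS, ← hGc, ← ratio_Gp m n p, div_mul_div_comm]
      have h1 : (univ.filter (fun r : Sg (m + 2) (n + 2) → ZMod (p * M) =>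
          (fun i => (e (r i)).1) ∈ Gp (m + 2) (n + 2) p ∧ (fun i => (e (r i)).2) ∈ G)).card =
          (Gp (m + 2) (n + 2) p ×ˢ G).card := by
        apply card_bij' (fun r _ => (fun i => (e (r i)).1, fun i => (e (r i)).2))
          (fun ab _ => fun i => e.symm (ab.1 i, ab.2 i))
        · intro r hr
          exact mem_product.2 (mem_filter.1 hr).2
        · intro ab hab
          rw [mem_filter]
          refine ⟨mem_univ _, ?_⟩
          simp only [RingEquiv.apply_symm_apply]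
          exact mem_product.1 hab
        · intro r _
          funext i
          simp
        · intro ab _
          simp
      rw [h1, card_product]
      push_cast
      rw [mul_pow]

/-- the density of the vectors in the box that are good at all primes of a finite set -/
lemma dens_S (m n : ℕ) (S : Finset ℕ) (hS : ∀ p ∈ S, p.Prime) [DecidablePred fun z : Sg (m + 2) (n + 2) → ℤ =>
      ∀ p ∈ S, ∀ _ : Fact p.Prime, GoodZ p z] :
    Tendsto (fun H : ℕ => (((Bx (JJ (m + 2) (n + 2)) H).filter (fun z =>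
      ∀ p ∈ S, ∀ _ : Fact p.Prime, GoodZ p z)).card : ℝ) / ((Bx (JJ (m + 2) (n + 2)) H).card : ℝ)) atTop
      (𝓝 (∏ p ∈ S, (1 - 1 / (p : ℝ) ^ 2) ^ 2)) := by
  obtain ⟨M, hM, -, G, hG, hGc⟩ := crt m n S hS
  rw [← hGc]
  have h1 := Bx_tendsto (JJ (m + 2) (n + 2)) M hM G
  convert h1 using 5
  ext z
  simp only [mem_filter, hG]

/-- the number of vectors that are bad at `p ≤ 2 H` -/
lemma bad_mid (m n p H : ℕ) [hp : Fact p.Prime] (hpH : p ≤ 2 * H)
    [DecidablePred fun z : Sg (m + 2) (n + 2) → ℤ => ¬ GoodZ p z] :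
    (((Bx (JJ (m + 2) (n + 2)) H).filter (fun z => ¬ GoodZ p z)).card : ℝ) ≤
      2 * 5 ^ (m + n + 6) * (H : ℝ) ^ (m + n + 6) * ((p : ℝ) ^ 2)⁻¹ := by
  classical
  have h1 := Bx_cls_le (JJ (m + 2) (n + 2)) H p hp.out.pos hpH (Gp (m + 2) (n + 2) p)ᶜ
  have h2 : ((Bx (JJ (m + 2) (n + 2)) H).filter (fun z => ¬ GoodZ p z)) =
      ((Bx (JJ (m + 2) (n + 2)) H).filter (fun z => (fun i => (z i : ZMod p)) ∈ (Gp (m + 2) (n + 2) p)ᶜ)) := by
    ext z
    simp only [mem_filter, mem_compl, Gp, mem_univ, true_and]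
    rw [goodZ_iff]
  rw [h2]
  refine h1.trans ?_
  have hp0 : (0 : ℝ) < p := by exact_mod_cast hp.out.pos
  have h3 : (((Gp (m + 2) (n + 2) p)ᶜ).card : ℝ) ≤ 2 * (p : ℝ) ^ (m + n + 4) := by
    have h4 := card_compl_add_card (Gp (m + 2) (n + 2) p)
    have h5 : (((Gp (m + 2) (n + 2) p)ᶜ).card : ℝ) + ((Gp (m + 2) (n + 2) p).card : ℝ) = (p : ℝ) ^ (m + n + 6) := by
      rw [← Nat.cast_add, h4, Fintype.card_fun, ZMod.card, card_Sg]
      push_cast
      congr 1; ring
    rw [card_Gp] at h5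
    have h6 : 1 ≤ p ^ 2 := Nat.one_le_pow _ _ hp.out.pos
    push_cast [Nat.cast_sub h6] at h5
    have e1 : (p : ℝ) ^ (m + n + 6) = (p : ℝ) ^ (m + n + 2) * ((p : ℝ) ^ 2) ^ 2 := by
      rw [← pow_mul, ← pow_add]
    have e2 : (p : ℝ) ^ (m + n + 4) = (p : ℝ) ^ (m + n + 2) * (p : ℝ) ^ 2 := by
      rw [← pow_add]
    rw [e1] at h5
    rw [e2]
    have e3 : (0 : ℝ) < (p : ℝ) ^ (m + n + 2) := by positivity
    nlinarith [e3]
  have h4 : (0 : ℝ) ≤ (5 * H / p : ℝ) ^ Fintype.card (Sg (m + 2) (n + 2)) := by positivity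
  refine (mul_le_mul_of_nonneg_right h3 h4).trans (le_of_eq ?_)
  rw [card_Sg, show m + 2 + (n + 2) + 2 = m + n + 6 by ring, div_pow, mul_pow]
  have e1 : (p : ℝ) ^ (m + n + 6) = (p : ℝ) ^ (m + n + 4) * (p : ℝ) ^ 2 := by
    rw [← pow_add]
  rw [e1]
  field_simp

end Pool.Agent.R492.Bez
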