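import Mathlib
import Pool.Agent.R492.Bez.Field

/-!
# The denominator `B` and the resultant `R` agree if and only if the local conditions hold
-/

set_option autoImplicit false

namespace Pool.Agent.R492.Bez

open Polynomial

/-- `f` and `g` share no root in `ℂ`. -/
def Coprime (f g : ℤ[X]) : Prop := ∀ z : ℂ, ¬ (aeval z f = 0 ∧ aeval z g = 0)

/-- The least positive integer `N` such that `N p` and `N q` have integer coefficients, where `p`, `q` are
the rational polynomials with `p f + q g = 1`, `deg p < deg g`, `deg q < deg f`. -/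
noncomputable def B (f g : ℤ[X]) : ℕ :=
  sInf {N : ℕ | 0 < N ∧ ∃ p q : ℚ[X],
    p * f.map (Int.castRingHom ℚ) + q * g.map (Int.castRingHom ℚ) = 1 ∧
    p.degree < g.degree ∧ q.degree < f.degree ∧
    (∃ u : ℤ[X], C (N : ℚ) * p = u.map (Int.castRingHom ℚ)) ∧
    ∃ v : ℤ[X], C (N : ℚ) * q = v.map (Int.castRingHom ℚ)}

/-- the absolute value of the resultant -/
noncomputable def R (f g : ℤ[X]) : ℕ := (resultant f g).natAbs

/-- the multiples `N` of `1` in the image of the Sylvester map -/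
def Img (m n : ℕ) (f g : ℤ[X]) (w : ℤ[X]) : Prop :=
  ∃ u v : ℤ[X], u.degree < (n : WithBot ℕ) ∧ v.degree < (m : WithBot ℕ) ∧ u * f + v * g = w

lemma coprime_res {f g : ℤ[X]} (h : Coprime f g) : resultant f g ≠ 0 := by
  have hi : Function.Injective (Int.castRingHom ℂ) := Int.cast_injective
  intro h0
  have h1 := resultant_map_map f g f.natDegree g.natDegree (Int.castRingHom ℂ)
  rw [h0, map_zero] at h1
  have h2 : resultant (f.map (Int.castRingHom ℂ)) (g.map (Int.castRingHom ℂ)) = 0 := by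
    rw [natDegree_map_eq_of_injective hi, natDegree_map_eq_of_injective hi]; exact h1
  obtain ⟨-, h3⟩ := resultant_eq_zero_iff.1 h2
  apply h3
  rw [Polynomial.isCoprime_iff_aeval_ne_zero_of_isAlgClosed ℂ ℂ]
  intro z
  by_contra hc
  push Not at hc
  apply h z
  simpa [aeval_def, eval₂_map, eval_map] using hc

lemma mem_B_iff {m n : ℕ} {f g : ℤ[X]} (hf : f.natDegree = m) (hg : g.natDegree = n) (hf0 : f ≠ 0)
    (hg0 : g ≠ 0) (N : ℕ) (hN : 0 < N) :
    (∃ p q : ℚ[X],
    p * f.map (Int.castRingHom ℚ) + q * g.map (Int.castRingHom ℚ) = 1 ∧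
    p.degree < g.degree ∧ q.degree < f.degree ∧
    (∃ u : ℤ[X], C (N : ℚ) * p = u.map (Int.castRingHom ℚ)) ∧
    ∃ v : ℤ[X], C (N : ℚ) * q = v.map (Int.castRingHom ℚ)) ↔ Img m n f g (C (N : ℤ)) := by
  have hi : Function.Injective (Int.castRingHom ℚ) := Int.cast_injective
  have hNQ : (N : ℚ) ≠ 0 := by exact_mod_cast hN.ne'
  have hdf : f.degree = (m : WithBot ℕ) := by rw [degree_eq_natDegree hf0, hf]
  have hdg : g.degree = (n : WithBot ℕ) := by rw [degree_eq_natDegree hg0, hg]
  rw [hdf, hdg]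
  constructor
  · rintro ⟨p, q, h1, hp, hq, ⟨u, hu⟩, ⟨v, hv⟩⟩
    refine ⟨u, v, ?_, ?_, ?_⟩
    · rw [← degree_map_eq_of_injective hi u, ← hu, degree_C_mul hNQ]; exact hp
    · rw [← degree_map_eq_of_injective hi v, ← hv, degree_C_mul hNQ]; exact hq
    · apply map_injective _ hi
      rw [Polynomial.map_add, Polynomial.map_mul, Polynomial.map_mul, ← hu, ← hv, Polynomial.map_C]
      have : (Int.castRingHom ℚ) (N : ℤ) = (N : ℚ) := by simp
      rw [this]
      linear_combination (C (N : ℚ)) * h1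
  · rintro ⟨u, v, hu, hv, huv⟩
    have hc : C (N : ℚ) * C ((N : ℚ)⁻¹) = 1 := by rw [← C_mul, mul_inv_cancel₀ hNQ, C_1]
    refine ⟨C ((N : ℚ)⁻¹) * u.map (Int.castRingHom ℚ), C ((N : ℚ)⁻¹) * v.map (Int.castRingHom ℚ), ?_, ?_, ?_,
      ⟨u, ?_⟩, ⟨v, ?_⟩⟩
    · have h2 := congrArg (Polynomial.map (Int.castRingHom ℚ)) huv
      rw [Polynomial.map_add, Polynomial.map_mul, Polynomial.map_mul, Polynomial.map_C] at h2
      have : (Int.castRingHom ℚ) (N : ℤ) = (N : ℚ) := by simp
      rw [this] at h2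
      linear_combination (C ((N : ℚ)⁻¹)) * h2 + hc
    · rw [degree_C_mul (inv_ne_zero hNQ), degree_map_eq_of_injective hi]; exact hu
    · rw [degree_C_mul (inv_ne_zero hNQ), degree_map_eq_of_injective hi]; exact hv
    · rw [← mul_assoc, hc, one_mul]
    · rw [← mul_assoc, hc, one_mul]

/-- lifting polynomials modulo `p` with a degree bound -/
lemma lift_deg (p : ℕ) [Fact p.Prime] (w : (ZMod p)[X]) (k : ℕ) (hw : w.degree < (k : WithBot ℕ)) :
    ∃ W : ℤ[X], W.degree < (k : WithBot ℕ) ∧ W.map (Int.castRingHom (ZMod p)) = w := by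
  have h : w ∈ lifts (Int.castRingHom (ZMod p)) := by
    rw [lifts_iff_coeff_lifts]
    intro i
    exact ZMod.intCast_surjective _
  obtain ⟨W, hW, hd⟩ := exists_degree_eq_of_mem_lifts h
  exact ⟨W, by rw [hd]; exact hw, hW⟩


section quot

variable {m n : ℕ} {f g : ℤ[X]}

lemma syl_inj (hf : f.natDegree ≤ m) (hg : g.natDegree ≤ n) (hR : resultant f g m n ≠ 0) :
    Function.Injective (sylvesterMap f g hf hg) := by
  have h := adjSylvester_comp_sylveserMap f g hf hg
  intro x y hxy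
  have h1 := congrArg (fun φ => φ x) h
  have h2 := congrArg (fun φ => φ y) h
  simp only [LinearMap.comp_apply, LinearMap.smul_apply, LinearMap.id_apply] at h1 h2
  rw [hxy, h2] at h1
  exact (smul_right_injective _ hR h1).symm

lemma card_quot (hf : f.natDegree ≤ m) (hg : g.natDegree ≤ n) (hR : resultant f g m n ≠ 0) :
    Nat.card (degreeLT ℤ (m + n) ⧸ LinearMap.range (sylvesterMap f g hf hg)) =
      (resultant f g m n).natAbs := by
  have hinj := syl_inj hf hg hR
  set b₁ := ((degreeLT.basis ℤ m).prod (degreeLT.basis ℤ n)).reindex finSumFinEquiv with hb1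
  set b₂ := degreeLT.basis ℤ (m + n) with hb2
  set bN := b₁.map (LinearEquiv.ofInjective (sylvesterMap f g hf hg) hinj) with hbN
  have : Module.Free ℤ (degreeLT ℤ (m + n)) := Module.Free.of_basis b₂
  have : Module.Finite ℤ (degreeLT ℤ (m + n)) := Module.Finite.of_basis b₂
  rw [← Submodule.natAbs_det_basis_change b₂ _ bN]
  congr 1
  rw [Module.Basis.det_apply, resultant, ← toMatrix_sylvesterMap' f g hf hg]
  congr 1
  ext i j
  rw [LinearMap.toMatrix_apply, Module.Basis.toMatrix_apply]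
  rfl

/-- the class of `1` -/
noncomputable def e1 (hf : f.natDegree ≤ m) (hg : g.natDegree ≤ n) (hmn : 1 ≤ m + n) :
    degreeLT ℤ (m + n) ⧸ LinearMap.range (sylvesterMap f g hf hg) :=
  Submodule.Quotient.mk ⟨1, by
    rw [mem_degreeLT]
    refine lt_of_le_of_lt degree_one_le ?_
    exact_mod_cast (by omega : 0 < m + n)⟩

lemma mem_range_iff (hf : f.natDegree ≤ m) (hg : g.natDegree ≤ n) (w : degreeLT ℤ (m + n)) :
    w ∈ LinearMap.range (sylvesterMap f g hf hg) ↔ Img m n f g (w : ℤ[X]) := by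
  constructor
  · rintro ⟨⟨⟨p, hp⟩, ⟨q, hq⟩⟩, rfl⟩
    refine ⟨q, p, mem_degreeLT.1 hq, mem_degreeLT.1 hp, ?_⟩
    simp only [sylvesterMap_apply_coe]
    ring
  · rintro ⟨u, v, hu, hv, h⟩
    refine ⟨⟨⟨v, mem_degreeLT.2 hv⟩, ⟨u, mem_degreeLT.2 hu⟩⟩, ?_⟩
    apply Subtype.ext
    simp only [sylvesterMap_apply_coe]
    rw [← h]
    ring

lemma nsmul_e1 (hf : f.natDegree ≤ m) (hg : g.natDegree ≤ n) (hmn : 1 ≤ m + n) (N : ℕ) :
    N • e1 hf hg hmn = 0 ↔ Img m n f g (C (N : ℤ)) := by
  unfold e1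
  rw [← Submodule.Quotient.mk_smul, Submodule.Quotient.mk_eq_zero, mem_range_iff]
  have : (((N • (⟨1, by
    rw [mem_degreeLT]
    refine lt_of_le_of_lt degree_one_le ?_
    exact_mod_cast (by omega : 0 < m + n)⟩ : degreeLT ℤ (m + n))) : degreeLT ℤ (m + n)) : ℤ[X]) =
      C (N : ℤ) := by
    simp
  rw [this]

lemma B_eq (hf : f.natDegree = m) (hg : g.natDegree = n) (hf0 : f ≠ 0) (hg0 : g ≠ 0) (hmn : 1 ≤ m + n)
    (hR : resultant f g m n ≠ 0) : B f g = addOrderOf (e1 hf.le hg.le hmn) := by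
  have hcard := card_quot hf.le hg.le hR
  have : Finite (degreeLT ℤ (m + n) ⧸ LinearMap.range (sylvesterMap f g hf.le hg.le)) := by
    apply Nat.finite_of_card_ne_zero
    rw [hcard]
    exact Int.natAbs_ne_zero.2 hR
  set x := e1 hf.le hg.le hmn with hx
  have hpos : 0 < addOrderOf x := addOrderOf_pos x
  unfold B
  apply le_antisymm
  · apply Nat.sInf_le
    refine ⟨hpos, ?_⟩
    rw [mem_B_iff hf hg hf0 hg0 _ hpos, ← nsmul_e1 hf.le hg.le hmn]
    exact addOrderOf_nsmul_eq_zero x
  · apply le_csInf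
    · refine ⟨addOrderOf x, hpos, ?_⟩
      rw [mem_B_iff hf hg hf0 hg0 _ hpos, ← nsmul_e1 hf.le hg.le hmn]
      exact addOrderOf_nsmul_eq_zero x
    · rintro N ⟨hN, h⟩
      rw [mem_B_iff hf hg hf0 hg0 _ hN, ← nsmul_e1 hf.le hg.le hmn] at h
      exact addOrderOf_le_of_nsmul_eq_zero hN h

lemma zmult_top_iff (hf : f.natDegree ≤ m) (hg : g.natDegree ≤ n) (hmn : 1 ≤ m + n) :
    AddSubgroup.zmultiples (e1 hf hg hmn) = ⊤ ↔
      ∀ w : ℤ[X], w.degree < ((m + n : ℕ) : WithBot ℕ) → ∃ k : ℤ, Img m n f g (w - C k) := by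
  have key : ∀ (w : degreeLT ℤ (m + n)) (k : ℤ),
      (k • e1 hf hg hmn = (Submodule.Quotient.mk w : degreeLT ℤ (m + n) ⧸ _)) ↔
        Img m n f g ((w : ℤ[X]) - C k) := by
    intro w k
    unfold e1
    rw [← Submodule.Quotient.mk_smul, eq_comm, Submodule.Quotient.eq, mem_range_iff]
    simp
  constructor
  · intro h w hw
    have h1 : (Submodule.Quotient.mk (⟨w, mem_degreeLT.2 hw⟩ : degreeLT ℤ (m + n)) :
        degreeLT ℤ (m + n) ⧸ LinearMap.range (sylvesterMap f g hf hg)) ∈
        AddSubgroup.zmultiples (e1 hf hg hmn) := by rw [h]; trivial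
    obtain ⟨k, hk⟩ := AddSubgroup.mem_zmultiples_iff.1 h1
    exact ⟨k, (key _ k).1 hk⟩
  · intro h
    rw [eq_top_iff]
    intro y _
    obtain ⟨w, rfl⟩ := Submodule.Quotient.mk_surjective _ y
    obtain ⟨k, hk⟩ := h w (mem_degreeLT.1 w.2)
    exact AddSubgroup.mem_zmultiples_iff.2 ⟨k, (key _ k).2 hk⟩

lemma natDegree_map_le' (p : ℕ) (f : ℤ[X]) (m : ℕ) (hf : f.natDegree ≤ m) :
    (f.map (Int.castRingHom (ZMod p))).natDegree ≤ m := (natDegree_map_le).trans hf

/-- the generation criterion is local -/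
lemma local_iff (hf : f.natDegree ≤ m) (hg : g.natDegree ≤ n) (hmn : 1 ≤ m + n)
    (hR : resultant f g m n ≠ 0) :
    AddSubgroup.zmultiples (e1 hf hg hmn) = ⊤ ↔
      ∀ p : ℕ, ∀ hp : Fact p.Prime, Gen m n (f.map (Int.castRingHom (ZMod p)))
        (g.map (Int.castRingHom (ZMod p))) := by
  constructor
  · intro h p hp W hW
    rw [zmult_top_iff] at h
    obtain ⟨w, hw, hwW⟩ := lift_deg p W (m + n) hW
    obtain ⟨k, u, v, hu, hv, huv⟩ := h w hw
    refine ⟨(k : ZMod p), u.map (Int.castRingHom (ZMod p)), v.map (Int.castRingHom (ZMod p)),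
      lt_of_le_of_lt degree_map_le hu, lt_of_le_of_lt degree_map_le hv, ?_⟩
    have h1 := congrArg (Polynomial.map (Int.castRingHom (ZMod p))) huv
    rw [Polynomial.map_add, Polynomial.map_mul, Polynomial.map_mul, Polynomial.map_sub, Polynomial.map_C,
      hwW] at h1
    have h2 : (Int.castRingHom (ZMod p)) k = (k : ZMod p) := by simp
    rw [h2] at h1
    linear_combination -h1
  · intro h
    have hcard := card_quot hf hg hR
    have : Finite (degreeLT ℤ (m + n) ⧸ LinearMap.range (sylvesterMap f g hf hg)) := by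
      apply Nat.finite_of_card_ne_zero
      rw [hcard]
      exact Int.natAbs_ne_zero.2 hR
    set x := e1 hf hg hmn with hx
    by_contra hne
    have hnt : Nontrivial ((degreeLT ℤ (m + n) ⧸ LinearMap.range (sylvesterMap f g hf hg)) ⧸
        AddSubgroup.zmultiples x) := by
      rw [← not_subsingleton_iff_nontrivial]
      intro hs
      exact hne (QuotientAddGroup.addSubgroup_eq_top_of_subsingleton _ hs)
    have hfin : Finite ((degreeLT ℤ (m + n) ⧸ LinearMap.range (sylvesterMap f g hf hg)) ⧸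
        AddSubgroup.zmultiples x) := inferInstance
    obtain ⟨p, hp, hpd⟩ := Nat.exists_prime_and_dvd (Finite.one_lt_card (α :=
      ((degreeLT ℤ (m + n) ⧸ LinearMap.range (sylvesterMap f g hf hg)) ⧸
        AddSubgroup.zmultiples x))).ne'
    have hpF : Fact p.Prime := ⟨hp⟩
    obtain ⟨a, ha⟩ := exists_prime_addOrderOf_dvd_card' p hpd
    have hsurj : Function.Surjective (fun y : ((degreeLT ℤ (m + n) ⧸
        LinearMap.range (sylvesterMap f g hf hg)) ⧸ AddSubgroup.zmultiples x) => p • y) := by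
      intro y
      obtain ⟨y1, rfl⟩ := QuotientAddGroup.mk_surjective y
      obtain ⟨w, rfl⟩ := Submodule.Quotient.mk_surjective _ y1
      obtain ⟨k', u', v', hu', hv', hW⟩ := h p hpF ((w : ℤ[X]).map (Int.castRingHom (ZMod p)))
        (lt_of_le_of_lt degree_map_le (mem_degreeLT.1 w.2))
      obtain ⟨u, hu, rfl⟩ := lift_deg p u' n hu'
      obtain ⟨v, hv, rfl⟩ := lift_deg p v' m hv'
      obtain ⟨k, rfl⟩ := ZMod.intCast_surjective k'
      -- the difference is divisible by `p`
      have h1 : C (p : ℤ) ∣ (w : ℤ[X]) - C k - (u * f + v * g) := by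
        rw [C_dvd_iff_dvd_coeff]
        intro i
        rw [← ZMod.intCast_zmod_eq_zero_iff_dvd]
        have h3 : (((w : ℤ[X]) - C k - (u * f + v * g)).map (Int.castRingHom (ZMod p))).coeff i = 0 := by
          rw [Polynomial.map_sub, Polynomial.map_sub, hW, Polynomial.map_add, Polynomial.map_mul,
            Polynomial.map_mul, Polynomial.map_C]
          have h2 : (Int.castRingHom (ZMod p)) k = (k : ZMod p) := by simp
          rw [h2]
          simp only [coeff_sub, coeff_add]
          ring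
        rw [coeff_map] at h3
        simpa using h3
      obtain ⟨w', hw'⟩ := h1
      have hdeg : ((w : ℤ[X]) - C k - (u * f + v * g)).degree < ((m + n : ℕ) : WithBot ℕ) := by
        have hI : (u * f + v * g) ∈ degreeLT ℤ (m + n) := by
          have := (sylvesterMap f g hf hg ⟨⟨v, mem_degreeLT.2 hv⟩, ⟨u, mem_degreeLT.2 hu⟩⟩).2
          rw [sylvesterMap_apply_coe] at this
          simp only at this
          convert this using 1
          ring
        have hk : (C k : ℤ[X]) ∈ degreeLT ℤ (m + n) := by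
          rw [mem_degreeLT]
          refine lt_of_le_of_lt degree_C_le ?_
          exact_mod_cast (by omega : 0 < m + n)
        exact mem_degreeLT.1 (Submodule.sub_mem _ (Submodule.sub_mem _ w.2 hk) hI)
      have hdeg' : w'.degree < ((m + n : ℕ) : WithBot ℕ) := by
        rw [hw', degree_C_mul (by exact_mod_cast hp.ne_zero)] at hdeg
        exact hdeg
      refine ⟨QuotientAddGroup.mk (Submodule.Quotient.mk ⟨w', mem_degreeLT.2 hdeg'⟩), ?_⟩
      change QuotientAddGroup.mk (p • (Submodule.Quotient.mk ⟨w', mem_degreeLT.2 hdeg'⟩ :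
        degreeLT ℤ (m + n) ⧸ LinearMap.range (sylvesterMap f g hf hg))) = _
      rw [QuotientAddGroup.eq, AddSubgroup.mem_zmultiples_iff]
      refine ⟨k, ?_⟩
      rw [hx]
      unfold e1
      rw [← Submodule.Quotient.mk_smul, ← Submodule.Quotient.mk_smul, ← Submodule.Quotient.mk_neg,
        ← Submodule.Quotient.mk_add, Submodule.Quotient.eq, mem_range_iff]
      refine ⟨-u, -v, by rwa [degree_neg], by rwa [degree_neg], ?_⟩
      simp only [Submodule.coe_sub, Submodule.coe_add, Submodule.coe_neg, Submodule.coe_smul]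
      rw [show ((p • (⟨w', mem_degreeLT.2 hdeg'⟩ : degreeLT ℤ (m + n)) : degreeLT ℤ (m + n)) : ℤ[X]) =
        p • w' from rfl]
      have h4 : (C (p : ℤ) : ℤ[X]) * w' = p • w' := by
        rw [nsmul_eq_mul]; congr 1
      rw [zsmul_eq_mul, ← h4, ← hw', mul_one]
      have h5 : ((k : ℤ) : ℤ[X]) = C k := by simp
      rw [h5]
      ring
    have hinj := Finite.injective_iff_surjective.2 hsurj
    have h2 : p • a = p • (0 : ((degreeLT ℤ (m + n) ⧸
        LinearMap.range (sylvesterMap f g hf hg)) ⧸ AddSubgroup.zmultiples x)) := by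
      rw [smul_zero, ← ha]
      exact addOrderOf_nsmul_eq_zero a
    have h3 := hinj h2
    rw [h3, addOrderOf_zero] at ha
    exact hp.one_lt.ne ha

theorem B_eq_R_iff (hf : f.natDegree = m) (hg : g.natDegree = n) (hm : 1 ≤ m) (hn : 1 ≤ n)
    (h : Coprime f g) : B f g = R f g ↔ ∀ p : ℕ, ∀ _ : Fact p.Prime,
      Good m n (f.map (Int.castRingHom (ZMod p))) (g.map (Int.castRingHom (ZMod p))) := by
  have hf0 : f ≠ 0 := by rintro rfl; simp at hf; omega
  have hg0 : g ≠ 0 := by rintro rfl; simp at hg; omega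
  have hmn : 1 ≤ m + n := by omega
  have hR0 := coprime_res h
  have hR : resultant f g m n ≠ 0 := by rw [hf, hg] at hR0; exact hR0
  have hcard := card_quot hf.le hg.le hR
  have : Finite (degreeLT ℤ (m + n) ⧸ LinearMap.range (sylvesterMap f g hf.le hg.le)) := by
    apply Nat.finite_of_card_ne_zero
    rw [hcard]
    exact Int.natAbs_ne_zero.2 hR
  have h1 : B f g = R f g ↔ AddSubgroup.zmultiples (e1 hf.le hg.le hmn) = ⊤ := by
    rw [B_eq hf hg hf0 hg0 hmn hR]
    have h2 : R f g = Nat.card (degreeLT ℤ (m + n) ⧸ LinearMap.range (sylvesterMap f g hf.le hg.le)) := by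
      rw [hcard, R, hf, hg]
    rw [h2, ← Nat.card_zmultiples]
    exact AddSubgroup.card_eq_iff_eq_top _
  rw [h1, local_iff hf.le hg.le hmn hR]
  constructor
  · intro h3 p hp
    exact gen_good hm hn _ _ (natDegree_map_le' p f m hf.le) (natDegree_map_le' p g n hg.le) (h3 p hp)
  · intro h3 p hp
    exact good_gen hmn _ _ (natDegree_map_le' p f m hf.le) (natDegree_map_le' p g n hg.le) (h3 p hp)

end quot

end Pool.Agent.R492.Bez
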