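import Mathlib
import Pool.Agent.R492.Bez.Dens
import Pool.Agent.R492.Bez.Int

/-!
# The tail: large primes, and pairs that are not coprime
-/

set_option autoImplicit false

namespace Pool.Agent.R492.Bez

open Polynomial Finset Filter Topology

variable {m n : ℕ}

lemma ff_update {R : Type*} [CommRing R] (z : Sg m n → R) :
    ff z = ff (Function.update z (Sum.inl 0) 0) + C (z (Sum.inl 0)) := by
  unfold ff pol
  rw [Fin.sum_univ_succ, Fin.sum_univ_succ]
  simp [Fin.succ_ne_zero, add_comm]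

lemma gg_update {R : Type*} [CommRing R] (z : Sg m n → R) :
    gg (Function.update z (Sum.inl 0) 0) = gg z := by
  unfold gg
  simp

lemma gg_ne {L : Type*} [Field L] (φ : ℤ →+* L) (z : Sg m n → ℤ) (h : φ (z (Sum.inr (Fin.last n))) ≠ 0) :
    (gg z).map φ ≠ 0 := by
  intro h0
  have h1 := congrArg (fun P => P.coeff n) h0
  simp only [coeff_map, coeff_zero] at h1
  have h2 := pol_coeff (fun i => z (Sum.inr i)) (Fin.last n)
  rw [Fin.val_last] at h2
  unfold gg at h1
  rw [h2] at h1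
  exact h h1

/-- The main counting step: vectors with the same coordinates except the constant term of `f`, such that
`f` and `g` have a common root in `L`, and such that the constant terms are determined by their images. -/
lemma fibre {L : Type*} [Field L] (φ : ℤ →+* L) (w : Sg m n → ℤ) (F : Finset (Sg m n → ℤ))
    (h1 : ∀ z ∈ F, Function.update z (Sum.inl 0) 0 = w)
    (h2 : ∀ z ∈ F, ∀ z' ∈ F, φ (z (Sum.inl 0)) = φ (z' (Sum.inl 0)) → z (Sum.inl 0) = z' (Sum.inl 0))
    (h3 : ∀ z ∈ F, φ (z (Sum.inr (Fin.last n))) ≠ 0)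
    (h4 : ∀ z ∈ F, ∃ β : L, ((ff z).map φ).eval β = 0 ∧ ((gg z).map φ).eval β = 0) : F.card ≤ n := by
  classical
  rcases F.eq_empty_or_nonempty with rfl | ⟨z₀, hz₀⟩
  · simp
  have hg : (gg w).map φ ≠ 0 := by
    rw [← h1 z₀ hz₀, gg_update]
    exact gg_ne φ z₀ (h3 z₀ hz₀)
  have hinj : Set.InjOn (fun z : Sg m n → ℤ => φ (z (Sum.inl 0))) F := by
    intro z hz z' hz' h
    have h5 := h2 z hz z' hz' h
    have h6 := (h1 z hz).trans (h1 z' hz').symm
    funext i
    by_cases hi : i = Sum.inl 0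
    · rw [hi]; exact h5
    · have := congrFun h6 i
      rwa [Function.update_of_ne hi, Function.update_of_ne hi] at this
  rw [← card_image_of_injOn hinj]
  have hsub : F.image (fun z : Sg m n → ℤ => φ (z (Sum.inl 0))) ⊆
      ((gg w).map φ).roots.toFinset.image (fun β => -(((ff w).map φ).eval β)) := by
    intro t ht
    obtain ⟨z, hz, rfl⟩ := mem_image.1 ht
    obtain ⟨β, hβ1, hβ2⟩ := h4 z hz
    rw [mem_image]
    refine ⟨β, ?_, ?_⟩
    · rw [Multiset.mem_toFinset, mem_roots hg]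
      rw [← h1 z hz, gg_update]
      exact hβ2
    · rw [ff_update z, h1 z hz, Polynomial.map_add, eval_add, Polynomial.map_C, eval_C] at hβ1
      exact neg_eq_of_add_eq_zero_right hβ1
  refine (card_le_card hsub).trans (card_image_le.trans ?_)
  refine (Multiset.toFinset_card_le _).trans ((card_roots' _).trans ?_)
  exact natDegree_map_le.trans (pol_natDegree _)

lemma lead_mem {H : ℕ} {z : Sg m n → ℤ} (hz : z ∈ Bx (JJ m n) H) :
    1 ≤ z (Sum.inr (Fin.last n)) ∧ z (Sum.inr (Fin.last n)) ≤ H := by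
  have h := Fintype.mem_piFinset.1 hz (Sum.inr (Fin.last n))
  unfold Iv JJ at h
  simpa using h

lemma lead_mem' {H : ℕ} {z : Sg m n → ℤ} (hz : z ∈ Bx (JJ m n) H) :
    1 ≤ z (Sum.inl (Fin.last m)) ∧ z (Sum.inl (Fin.last m)) ≤ H := by
  have h := Fintype.mem_piFinset.1 hz (Sum.inl (Fin.last m))
  unfold Iv JJ at h
  simpa using h

/-- few pairs in the box are not coprime -/
lemma noncop (m n H : ℕ) [DecidablePred fun z : Sg m n → ℤ => ¬ Coprime (ff z) (gg z)] :
    ((Bx (JJ m n) H).filter (fun z => ¬ Coprime (ff z) (gg z))).card ≤ n * (2 * H + 1) ^ (m + n + 1) := by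
  classical
  have h := fib (Sum.inl 0 : Sg m n) H n ((Bx (JJ m n) H).filter (fun z => ¬ Coprime (ff z) (gg z)))
    (fun z hz => mem_Bx_abs (mem_filter.1 hz).1) (fun w => by
      apply fibre (Int.castRingHom ℂ) w
      · intro z hz
        exact (mem_filter.1 hz).2
      · intro z _ z' _ h
        exact Int.cast_injective h
      · intro z hz
        have := lead_mem (mem_filter.1 (mem_filter.1 hz).1).1
        simp only [eq_intCast, ne_eq, Int.cast_eq_zero]
        omega
      · intro z hz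
        have := (mem_filter.1 (mem_filter.1 hz).1).2
        unfold Coprime at this
        push Not at this
        obtain ⟨β, hβ⟩ := this
        refine ⟨β, ?_⟩
        simpa [aeval_def, eval_map] using hβ)
  rw [card_Sg] at h
  exact h

/-- bad at the large prime `p`, one fibre -/
lemma fibre_p {H p : ℕ} [hp : Fact p.Prime] (hpH : 2 * H < p) (w : Sg m n → ℤ) (F : Finset (Sg m n → ℤ))
    (h1 : ∀ z ∈ F, Function.update z (Sum.inl 0) 0 = w) (h0 : ∀ z ∈ F, z ∈ Bx (JJ m n) H)
    (h2 : ∀ z ∈ F, ∃ h : (ZMod p)[X], h ∣ (ff z).map (Int.castRingHom (ZMod p)) ∧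
      h ∣ (gg z).map (Int.castRingHom (ZMod p)) ∧ 2 ≤ h.natDegree) : F.card ≤ n := by
  set L := AlgebraicClosure (ZMod p) with hL
  set φ : ℤ →+* L := (algebraMap (ZMod p) L).comp (Int.castRingHom (ZMod p)) with hφ
  have hinj : Function.Injective (algebraMap (ZMod p) L) := (algebraMap (ZMod p) L).injective
  have hsmall : ∀ t : ℤ, |t| ≤ 2 * H → φ t = 0 → t = 0 := by
    intro t ht h
    have h3 : (t : ZMod p) = 0 := by
      apply hinj
      rw [map_zero]
      exact h
    rw [ZMod.intCast_zmod_eq_zero_iff_dvd] at h3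
    exact Int.eq_zero_of_abs_lt_dvd h3 (by omega)
  apply fibre φ w F h1
  · intro z hz z' hz' h
    have h3 : z (Sum.inl 0) - z' (Sum.inl 0) = 0 := by
      apply hsmall
      · have e1 := mem_Bx_abs (h0 z hz) (Sum.inl 0)
        have e2 := mem_Bx_abs (h0 z' hz') (Sum.inl 0)
        rw [abs_le] at e1 e2 ⊢
        omega
      · rw [map_sub, h, sub_self]
    omega
  · intro z hz h
    have h3 := lead_mem (h0 z hz)
    have := hsmall _ (by rw [abs_le]; omega) h
    omega
  · intro z hz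
    obtain ⟨h, e1, e2, e3⟩ := h2 z hz
    obtain ⟨β, hβ⟩ := IsAlgClosed.exists_root (h.map (algebraMap (ZMod p) L)) (by
      rw [degree_map_eq_of_injective hinj]
      intro h4
      have := natDegree_eq_zero_iff_degree_le_zero.2 h4.le
      omega)
    refine ⟨β, ?_, ?_⟩
    · have := Polynomial.map_dvd (algebraMap (ZMod p) L) e1
      rw [Polynomial.map_map] at this
      exact eval_eq_zero_of_dvd_of_eval_eq_zero this hβ
    · have := Polynomial.map_dvd (algebraMap (ZMod p) L) e2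
      rw [Polynomial.map_map] at this
      exact eval_eq_zero_of_dvd_of_eval_eq_zero this hβ

/-- bad at a prime `p > 2 H` means a common divisor of degree two, and then `p` divides `Dt z` -/
lemma bad_big {H p : ℕ} [hp : Fact p.Prime] (hn : 2 ≤ n) (hpH : 2 * H < p) (z : Sg m n → ℤ)
    (hz : z ∈ Bx (JJ m n) H) (hb : ¬ GoodZ p z) :
    (∃ h : (ZMod p)[X], h ∣ (ff z).map (Int.castRingHom (ZMod p)) ∧
      h ∣ (gg z).map (Int.castRingHom (ZMod p)) ∧ 2 ≤ h.natDegree) ∧ (p : ℤ) ∣ Dt z := by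
  have hlead := lead_mem hz
  have hc : ((z (Sum.inr (Fin.last n)) : ℤ) : ZMod p) ≠ 0 := by
    intro h
    rw [ZMod.intCast_zmod_eq_zero_iff_dvd] at h
    have := Int.eq_zero_of_abs_lt_dvd h (by rw [abs_of_pos (by omega)]; omega)
    omega
  unfold GoodZ Good at hb
  have h1 : ∃ h : (ZMod p)[X], h ∣ (ff z).map (Int.castRingHom (ZMod p)) ∧
      h ∣ (gg z).map (Int.castRingHom (ZMod p)) ∧ 2 ≤ h.natDegree := by
    by_contra hcon
    apply hb
    constructor
    · rintro ⟨-, h2⟩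
      rw [coeff_map] at h2
      have h3 := pol_coeff (fun i => z (Sum.inr i)) (Fin.last n)
      rw [Fin.val_last] at h3
      unfold gg at h2
      rw [h3] at h2
      exact hc h2
    · intro h e1 e2
      by_contra e3
      exact hcon ⟨h, e1, e2, by omega⟩
  refine ⟨h1, ?_⟩
  obtain ⟨h, e1, e2, e3⟩ := h1
  rw [ff_map] at e1
  rw [gg_map] at e2
  have h4 := Dt_zero hn (fun i => (Int.castRingHom (ZMod p)) (z i)) hc h e1 e2 e3
  rw [← Dt_map] at h4
  rw [← ZMod.intCast_zmod_eq_zero_iff_dvd]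
  exact h4

/-- few pairs are bad at some prime `p > 2 H` -/
lemma bad_large (m n : ℕ) (hm : 1 ≤ m) (hn : 2 ≤ n) : ∃ C H₀ : ℕ, ∀ H : ℕ, H₀ ≤ H →
    ∀ [DecidablePred fun z : Sg m n → ℤ => ∃ p : ℕ, 2 * H < p ∧ ∃ _ : Fact p.Prime, ¬ GoodZ p z],
    ((Bx (JJ m n) H).filter (fun z => ∃ p : ℕ, 2 * H < p ∧ ∃ _ : Fact p.Prime, ¬ GoodZ p z)).card ≤
      C * (2 * H + 1) ^ (m + n + 1) := by
  classical
  obtain ⟨C₁, hC₁⟩ := zc (DU m n) (DU_ne hm)
  obtain ⟨C₂, k, hb⟩ := bd (DU m n)
  refine ⟨C₁ + k * n, C₂ + 1, fun H hH _ => ?_⟩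
  have hH1 : 1 ≤ H := by omega
  -- split according to `Dt z = 0`
  have hsplit : ((Bx (JJ m n) H).filter (fun z => ∃ p : ℕ, 2 * H < p ∧ ∃ _ : Fact p.Prime, ¬ GoodZ p z)) ⊆
      ((Fintype.piFinset (fun _ : Sg m n => Icc (-(H : ℤ)) H)).filter
        (fun z => MvPolynomial.eval z (DU m n) = 0)) ∪
      ((Bx (JJ m n) H).filter (fun z => (∃ p : ℕ, 2 * H < p ∧ ∃ _ : Fact p.Prime, ¬ GoodZ p z) ∧
        Dt z ≠ 0)) := by
    intro z hz
    obtain ⟨h1, h2⟩ := mem_filter.1 hz
    rw [mem_union, mem_filter, mem_filter, eval_DU]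
    by_cases h3 : Dt z = 0
    · left
      refine ⟨?_, h3⟩
      rw [Fintype.mem_piFinset]
      intro i
      rw [mem_Icc, ← abs_le]
      exact mem_Bx_abs h1 i
    · right; exact ⟨h1, h2, h3⟩
  refine (card_le_card hsplit).trans ((card_union_le _ _).trans ?_)
  have e1 : ((Fintype.piFinset (fun _ : Sg m n => Icc (-(H : ℤ)) H)).filter
        (fun z => MvPolynomial.eval z (DU m n) = 0)).card ≤ C₁ * (2 * H + 1) ^ (m + n + 1) := by
    refine (hC₁ H hH1).trans (Nat.mul_le_mul_left _ ?_)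
    rw [card_Sg]
    exact Nat.pow_le_pow_left (by omega) _
  have e2 : ((Bx (JJ m n) H).filter (fun z => (∃ p : ℕ, 2 * H < p ∧ ∃ _ : Fact p.Prime, ¬ GoodZ p z) ∧
        Dt z ≠ 0)).card ≤ (k * n) * (2 * H + 1) ^ (m + n + 1) := by
    have h := fib (Sum.inl 0 : Sg m n) H (k * n) ((Bx (JJ m n) H).filter (fun z =>
        (∃ p : ℕ, 2 * H < p ∧ ∃ _ : Fact p.Prime, ¬ GoodZ p z) ∧ Dt z ≠ 0))
      (fun z hz => mem_Bx_abs (mem_filter.1 hz).1) ?_
    · rw [card_Sg] at h
      exact h
    intro w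
    set A := ((Bx (JJ m n) H).filter (fun z =>
        (∃ p : ℕ, 2 * H < p ∧ ∃ _ : Fact p.Prime, ¬ GoodZ p z) ∧ Dt z ≠ 0)).filter
        (fun z => Function.update z (Sum.inl 0) 0 = w) with hA
    rcases A.eq_empty_or_nonempty with h0 | ⟨z₀, hz₀⟩
    · rw [h0]; simp
    have hDz : ∀ z ∈ A, Dt z = Dt w := by
      intro z hz
      rw [← (mem_filter.1 hz).2, Dt_update]
    have hDw : Dt w ≠ 0 := by
      rw [← hDz z₀ hz₀]
      exact (mem_filter.1 (mem_filter.1 hz₀).1).2.2
    have hbw : |Dt w| ≤ C₂ * (H : ℤ) ^ k := by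
      rw [← hDz z₀ hz₀, ← eval_DU]
      exact hb H hH1 z₀ (mem_Bx_abs (mem_filter.1 (mem_filter.1 hz₀).1).1)
    have hfew := few_primes (Dt w) hDw H C₂ k (by omega) hbw
    set T := (Dt w).natAbs.primeFactors.filter (fun p => H < p) with hT
    have hcover : A ⊆ T.biUnion (fun p => A.filter (fun z => 2 * H < p ∧ ∃ _ : Fact p.Prime, ¬ GoodZ p z)) := by
      intro z hz
      obtain ⟨hz1, hz2⟩ := mem_filter.1 hz
      obtain ⟨hz3, ⟨p, hp1, hp2, hp3⟩, hz4⟩ := mem_filter.1 hz1
      rw [mem_biUnion]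
      refine ⟨p, ?_, mem_filter.2 ⟨hz, hp1, hp2, hp3⟩⟩
      rw [hT, mem_filter, Nat.mem_primeFactors]
      have h5 := (bad_big hn hp1 z hz3 hp3).2
      rw [hDz z hz] at h5
      exact ⟨⟨hp2.out, Int.natCast_dvd.1 h5, Int.natAbs_ne_zero.2 hDw⟩, by omega⟩
    refine (card_le_card hcover).trans (card_biUnion_le.trans ?_)
    calc ∑ p ∈ T, (A.filter (fun z => 2 * H < p ∧ ∃ _ : Fact p.Prime, ¬ GoodZ p z)).card
        ≤ ∑ _p ∈ T, n := by
          apply sum_le_sum
          intro p hp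
          have hpp : Fact p.Prime := ⟨(Nat.mem_primeFactors.1 (mem_filter.1 hp).1).1⟩
          by_cases hpH : 2 * H < p
          · apply fibre_p (H := H) hpH w
            · intro z hz
              exact (mem_filter.1 (mem_filter.1 hz).1).2
            · intro z hz
              exact (mem_filter.1 (mem_filter.1 (mem_filter.1 hz).1).1).1
            · intro z hz
              obtain ⟨h5, h6, h7, h8⟩ := mem_filter.1 hz
              exact (bad_big hn hpH z (mem_filter.1 (mem_filter.1 h5).1).1 h8).1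
          · rw [filter_eq_empty_iff.2 (fun z _ h => hpH h.1)]
            simp
      _ = T.card * n := by rw [sum_const, smul_eq_mul]
      _ ≤ k * n := Nat.mul_le_mul_right n hfew
  calc _ ≤ C₁ * (2 * H + 1) ^ (m + n + 1) + (k * n) * (2 * H + 1) ^ (m + n + 1) := add_le_add e1 e2
    _ = _ := by ring

end Pool.Agent.R492.Bez
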