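import Mathlib
import Pool.Agent.R492.Bez.Tail

/-!
# The limit of the proportion
-/

set_option autoImplicit false

namespace Pool.Agent.R492.Bez

open Polynomial Finset Filter Topology

/-- the partial Euler product converges -/
lemma euler : Tendsto (fun z : ℕ => ∏ p ∈ Nat.primesBelow z, (1 - 1 / (p : ℝ) ^ 2) ^ 2) atTop
    (𝓝 (36 / Real.pi ^ 4)) := by
  let f : ℕ →*₀ ℝ :=
    { toFun := fun n => 1 / (n : ℝ) ^ 2
      map_zero' := by simp
      map_one' := by simp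
      map_mul' := fun a b => by push_cast; rw [mul_pow, one_div_mul_one_div] }
  have hs : Summable (fun n : ℕ => ‖f n‖) := by
    have h1 : (fun n : ℕ => ‖f n‖) = fun n : ℕ => 1 / (n : ℝ) ^ 2 := by
      funext n
      change ‖1 / (n : ℝ) ^ 2‖ = _
      rw [Real.norm_of_nonneg (by positivity)]
    rw [h1]
    exact hasSum_zeta_two.summable
  have h1 := EulerProduct.eulerProduct_completely_multiplicative hs
  have h2 : ∑' n, f n = Real.pi ^ 2 / 6 := hasSum_zeta_two.tsum_eq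
  rw [h2] at h1
  have h3 := (h1.inv₀ (by positivity)).pow 2
  have h4 : (fun z : ℕ => ∏ p ∈ Nat.primesBelow z, (1 - 1 / (p : ℝ) ^ 2) ^ 2) =
      (fun x : ℕ => (∏ p ∈ Nat.primesBelow x, (1 - f p)⁻¹)⁻¹ ^ 2) := by
    funext z
    rw [prod_inv_distrib, inv_inv, ← prod_pow]
    rfl
  have h5 : (36 / Real.pi ^ 4) = (Real.pi ^ 2 / 6)⁻¹ ^ 2 := by
    rw [inv_div, div_pow, ← pow_mul]
    norm_num
  rw [h4, h5]
  exact h3

section

variable (m n : ℕ)

open Classical in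
/-- the coprime pairs in the box -/
noncomputable def SS (H : ℕ) : Finset (Sg m n → ℤ) := (Bx (JJ m n) H).filter (fun z => Coprime (ff z) (gg z))

open Classical in
/-- the coprime pairs in the box that are good at every prime -/
noncomputable def EE (H : ℕ) : Finset (Sg m n → ℤ) := (Bx (JJ m n) H).filter (fun z => Coprime (ff z) (gg z) ∧
  ∀ p : ℕ, ∀ _ : Fact p.Prime, GoodZ p z)

open Classical in
/-- the pairs in the box that are good at all primes below `t` -/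
noncomputable def TT (t H : ℕ) : Finset (Sg m n → ℤ) := (Bx (JJ m n) H).filter (fun z =>
  ∀ p ∈ Nat.primesBelow t, ∀ _ : Fact p.Prime, GoodZ p z)

end

lemma pow_ratio (H N : ℕ) (hH : 1 ≤ H) : (((2 * H + 1) ^ N : ℕ) : ℝ) ≤ 3 ^ N * (H : ℝ) ^ N := by
  rw [← mul_pow]
  push_cast
  have : (1 : ℝ) ≤ H := by exact_mod_cast hH
  gcongr
  linarith

/-- the comparison of the pairs good at all primes with the pairs good at the primes below `t` -/
lemma compare (m n : ℕ) : ∃ C : ℝ, 0 ≤ C ∧ ∃ H₀ : ℕ, 1 ≤ H₀ ∧ ∀ t H : ℕ, 2 ≤ t → H₀ ≤ H →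
    ((TT (m + 2) (n + 2) t H).card : ℝ) ≤ (EE (m + 2) (n + 2) H).card +
      (C / (t - 1 : ℕ) + C / H) * (Bx (JJ (m + 2) (n + 2)) H).card := by
  classical
  obtain ⟨C, H₁, hC⟩ := bad_large (m + 2) (n + 2) (by omega) (by omega)
  refine ⟨2 * 5 ^ (m + n + 6) + ((n + 2 : ℕ) + C) * 3 ^ (m + n + 5), by positivity, H₁ + 1, by omega,
    fun t H ht hH => ?_⟩
  have hH1 : 1 ≤ H := by omega
  have hH0 : (0 : ℝ) < H := by exact_mod_cast hH1
  -- the union bound
  have hsub : TT (m + 2) (n + 2) t H ⊆ EE (m + 2) (n + 2) H ∪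
      (((Bx (JJ (m + 2) (n + 2)) H).filter (fun z => ¬ Coprime (ff z) (gg z))) ∪
      (((Bx (JJ (m + 2) (n + 2)) H).filter (fun z => ∃ p : ℕ, 2 * H < p ∧ ∃ _ : Fact p.Prime, ¬ GoodZ p z)) ∪
      ((Ioc (t - 1) (2 * H)).biUnion (fun p => (Bx (JJ (m + 2) (n + 2)) H).filter (fun z =>
        ∃ _ : Fact p.Prime, ¬ GoodZ p z))))) := by
    intro z hz
    obtain ⟨h1, h2⟩ := mem_filter.1 hz
    simp only [mem_union, mem_filter, mem_biUnion, EE]
    by_cases h3 : Coprime (ff z) (gg z)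
    · by_cases h4 : ∀ p : ℕ, ∀ _ : Fact p.Prime, GoodZ p z
      · left; exact ⟨h1, h3, h4⟩
      · push Not at h4
        obtain ⟨p, hp, h5⟩ := h4
        right; right
        rcases Nat.lt_or_ge (2 * H) p with h6 | h6
        · left; exact ⟨h1, p, h6, hp, h5⟩
        · right
          refine ⟨p, ?_, h1, hp, h5⟩
          rw [mem_Ioc]
          refine ⟨?_, h6⟩
          by_contra h7
          apply h5
          apply h2 p _ hp
          rw [Nat.mem_primesBelow]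
          exact ⟨by omega, hp.out⟩
    · right; left; exact ⟨h1, h3⟩
  have hcard := (card_le_card hsub).trans ((card_union_le _ _).trans (Nat.add_le_add_left
    ((card_union_le _ _).trans (Nat.add_le_add_left ((card_union_le _ _).trans
      (Nat.add_le_add_left card_biUnion_le _)) _)) _))
  have hcardR : ((TT (m + 2) (n + 2) t H).card : ℝ) ≤ (EE (m + 2) (n + 2) H).card +
      ((((Bx (JJ (m + 2) (n + 2)) H).filter (fun z => ¬ Coprime (ff z) (gg z))).card : ℝ) +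
      ((((Bx (JJ (m + 2) (n + 2)) H).filter (fun z => ∃ p : ℕ, 2 * H < p ∧
        ∃ _ : Fact p.Prime, ¬ GoodZ p z)).card : ℝ) +
      ∑ p ∈ Ioc (t - 1) (2 * H), (((Bx (JJ (m + 2) (n + 2)) H).filter (fun z =>
        ∃ _ : Fact p.Prime, ¬ GoodZ p z)).card : ℝ))) := by
    exact_mod_cast hcard
  have hB : (H : ℝ) ^ (m + n + 6) ≤ (Bx (JJ (m + 2) (n + 2)) H).card := by
    have := card_Bx_ge (JJ (m + 2) (n + 2)) H
    rw [card_Sg, show m + 2 + (n + 2) + 2 = m + n + 6 by ring] at this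
    exact_mod_cast this
  have hB5 : (H : ℝ) ^ (m + n + 5) ≤ (Bx (JJ (m + 2) (n + 2)) H).card / H := by
    rw [le_div_iff₀ hH0]
    calc (H : ℝ) ^ (m + n + 5) * H = (H : ℝ) ^ (m + n + 6) := by rw [← pow_succ]
      _ ≤ _ := hB
  have b1 : (((Bx (JJ (m + 2) (n + 2)) H).filter (fun z => ¬ Coprime (ff z) (gg z))).card : ℝ) ≤
      (n + 2 : ℕ) * 3 ^ (m + n + 5) * ((Bx (JJ (m + 2) (n + 2)) H).card / H) := by
    have h1 : (((Bx (JJ (m + 2) (n + 2)) H).filter (fun z => ¬ Coprime (ff z) (gg z))).card : ℝ) ≤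
      (((n + 2) * (2 * H + 1) ^ (m + 2 + (n + 2) + 1) : ℕ) : ℝ) := by exact_mod_cast noncop (m + 2) (n + 2) H
    refine h1.trans ?_
    rw [Nat.cast_mul, mul_assoc]
    apply mul_le_mul_of_nonneg_left _ (by positivity)
    refine (pow_ratio H _ hH1).trans ?_
    rw [show m + 2 + (n + 2) + 1 = m + n + 5 by ring]
    exact mul_le_mul_of_nonneg_left hB5 (by positivity)
  have b2 : (((Bx (JJ (m + 2) (n + 2)) H).filter (fun z => ∃ p : ℕ, 2 * H < p ∧
        ∃ _ : Fact p.Prime, ¬ GoodZ p z)).card : ℝ) ≤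
      C * 3 ^ (m + n + 5) * ((Bx (JJ (m + 2) (n + 2)) H).card / H) := by
    have h1 : (((Bx (JJ (m + 2) (n + 2)) H).filter (fun z => ∃ p : ℕ, 2 * H < p ∧
        ∃ _ : Fact p.Prime, ¬ GoodZ p z)).card : ℝ) ≤ ((C * (2 * H + 1) ^ (m + 2 + (n + 2) + 1) : ℕ) : ℝ) := by
      exact_mod_cast hC H (by omega)
    refine h1.trans ?_
    rw [Nat.cast_mul, mul_assoc]
    apply mul_le_mul_of_nonneg_left _ (by positivity)
    refine (pow_ratio H _ hH1).trans ?_
    rw [show m + 2 + (n + 2) + 1 = m + n + 5 by ring]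
    exact mul_le_mul_of_nonneg_left hB5 (by positivity)
  have b3 : ∑ p ∈ Ioc (t - 1) (2 * H), (((Bx (JJ (m + 2) (n + 2)) H).filter (fun z =>
        ∃ _ : Fact p.Prime, ¬ GoodZ p z)).card : ℝ) ≤
      2 * 5 ^ (m + n + 6) * ((Bx (JJ (m + 2) (n + 2)) H).card : ℝ) * (1 / (t - 1 : ℕ)) := by
    have h1 : ∀ p ∈ Ioc (t - 1) (2 * H), (((Bx (JJ (m + 2) (n + 2)) H).filter (fun z =>
        ∃ _ : Fact p.Prime, ¬ GoodZ p z)).card : ℝ) ≤
        2 * 5 ^ (m + n + 6) * ((Bx (JJ (m + 2) (n + 2)) H).card : ℝ) * ((p : ℝ) ^ 2)⁻¹ := by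
      intro p hp
      rw [mem_Ioc] at hp
      by_cases hpp : p.Prime
      · have hpf : Fact p.Prime := ⟨hpp⟩
        have e1 : ((Bx (JJ (m + 2) (n + 2)) H).filter (fun z => ∃ _ : Fact p.Prime, ¬ GoodZ p z)) =
            ((Bx (JJ (m + 2) (n + 2)) H).filter (fun z => ¬ GoodZ p z)) := by
          ext z
          simp only [mem_filter]
          exact ⟨fun h => ⟨h.1, h.2.2⟩, fun h => ⟨h.1, hpf, h.2⟩⟩
        rw [e1]
        refine (bad_mid m n p H hp.2).trans ?_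
        apply mul_le_mul_of_nonneg_right _ (by positivity)
        exact mul_le_mul_of_nonneg_left hB (by positivity)
      · rw [filter_eq_empty_iff.2 (fun z _ h => hpp h.1.out)]
        simp only [card_empty, Nat.cast_zero]
        positivity
    refine (sum_le_sum h1).trans ?_
    rw [← mul_sum]
    apply mul_le_mul_of_nonneg_left _ (by positivity)
    rcases Nat.lt_or_ge (2 * H) (t - 1) with h2 | h2
    · rw [Ioc_eq_empty_of_le h2.le, sum_empty]
      positivity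
    · have h3 := sum_Ioc_inv_sq_le_sub (α := ℝ) (show t - 1 ≠ 0 by omega) h2
      rw [one_div]
      refine h3.trans ?_
      have : (0 : ℝ) ≤ ((2 * H : ℕ) : ℝ)⁻¹ := by positivity
      linarith
  refine hcardR.trans ?_
  have hBn : (0 : ℝ) ≤ (Bx (JJ (m + 2) (n + 2)) H).card := Nat.cast_nonneg _
  have ht1 : (0 : ℝ) < ((t - 1 : ℕ) : ℝ) := by exact_mod_cast (by omega : 0 < t - 1)
  set b : ℝ := ((Bx (JJ (m + 2) (n + 2)) H).card : ℝ) with hb
  set A1 : ℝ := 2 * 5 ^ (m + n + 6) with hA1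
  set A2 : ℝ := ((n + 2 : ℕ) + C) * 3 ^ (m + n + 5) with hA2
  have hA1n : 0 ≤ A1 := by positivity
  have hA2n : 0 ≤ A2 := by positivity
  have e3 : ((n + 2 : ℕ) : ℝ) * 3 ^ (m + n + 5) * (b / H) + (C * 3 ^ (m + n + 5) * (b / H)) = A2 / H * b := by
    rw [hA2]; ring
  have e4 : A1 * b * (1 / ((t - 1 : ℕ) : ℝ)) = A1 / ((t - 1 : ℕ) : ℝ) * b := by ring
  have e5 : A1 / ((t - 1 : ℕ) : ℝ) * b ≤ (A1 + A2) / ((t - 1 : ℕ) : ℝ) * b := by
    apply mul_le_mul_of_nonneg_right _ hBn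
    apply div_le_div_of_nonneg_right _ ht1.le
    linarith
  have e6 : A2 / H * b ≤ (A1 + A2) / H * b := by
    apply mul_le_mul_of_nonneg_right _ hBn
    apply div_le_div_of_nonneg_right _ hH0.le
    linarith
  rw [e4] at b3
  have e7 : ((A1 + A2) / ((t - 1 : ℕ) : ℝ) + (A1 + A2) / H) * b = (A1 + A2) / ((t - 1 : ℕ) : ℝ) * b +
    (A1 + A2) / H * b := by ring
  rw [e7]
  linarith

lemma EE_le_TT (m n t H : ℕ) : (EE m n H).card ≤ (TT m n t H).card := by
  classical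
  apply card_le_card
  intro z hz
  obtain ⟨h1, -, h3⟩ := mem_filter.1 hz
  exact mem_filter.2 ⟨h1, fun p _ hp => h3 p hp⟩

/-- the limit for the pairs good at all primes -/
lemma lim_E (m n : ℕ) : Tendsto (fun H : ℕ => ((EE (m + 2) (n + 2) H).card : ℝ) /
    ((Bx (JJ (m + 2) (n + 2)) H).card : ℝ)) atTop (𝓝 (36 / Real.pi ^ 4)) := by
  classical
  obtain ⟨C, hC, H₀, hH₀, hcmp⟩ := compare m n
  rw [Metric.tendsto_atTop]
  intro ε hε
  -- choose `t`
  have h1 := (Metric.tendsto_atTop.1 euler) (ε / 4) (by positivity)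
  obtain ⟨t₁, ht₁⟩ := h1
  obtain ⟨t₂, ht₂⟩ := exists_nat_gt (C / (ε / 4))
  obtain ⟨t, ht⟩ : ∃ t, t = t₁ + t₂ + 2 := ⟨_, rfl⟩
  have hCt : C / ((t - 1 : ℕ) : ℝ) < ε / 4 := by
    have h2 : (0 : ℝ) < ((t - 1 : ℕ) : ℝ) := by exact_mod_cast (by omega : 0 < t - 1)
    rw [div_lt_iff₀ h2]
    rw [div_lt_iff₀ (by positivity)] at ht₂
    have h3 : (t₂ : ℝ) ≤ ((t - 1 : ℕ) : ℝ) := by exact_mod_cast (by omega : t₂ ≤ t - 1)
    nlinarith
  have h2 := dens_S m n (Nat.primesBelow t) (fun p hp => (Nat.mem_primesBelow.1 hp).2)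
  rw [Metric.tendsto_atTop] at h2
  obtain ⟨H₁, hH₁⟩ := h2 (ε / 4) (by positivity)
  obtain ⟨H₂, hH₂⟩ := exists_nat_gt (C / (ε / 4))
  refine ⟨H₀ + H₁ + H₂ + 1, fun H hH => ?_⟩
  have hHpos : (0 : ℝ) < H := by exact_mod_cast (by omega : 0 < H)
  have hCH : C / (H : ℝ) < ε / 4 := by
    rw [div_lt_iff₀ hHpos]
    rw [div_lt_iff₀ (by positivity)] at hH₂
    have h3 : (H₂ : ℝ) ≤ H := by exact_mod_cast (by omega : H₂ ≤ H)
    nlinarith
  have e1 := hH₁ H (by omega)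
  have e2 := ht₁ t (by omega)
  have e3 := hcmp t H (by omega) (by omega)
  have e4 : ((EE (m + 2) (n + 2) H).card : ℝ) ≤ (TT (m + 2) (n + 2) t H).card := by
    exact_mod_cast EE_le_TT _ _ _ _
  have hbpos : (0 : ℝ) < (Bx (JJ (m + 2) (n + 2)) H).card := by
    have := card_Bx_ge (JJ (m + 2) (n + 2)) H
    have h5 : 0 < H ^ Fintype.card (Sg (m + 2) (n + 2)) := pow_pos (by omega) _
    exact_mod_cast lt_of_lt_of_le h5 this
  rw [Real.dist_eq] at e1 e2 ⊢
  have e1' : |((TT (m + 2) (n + 2) t H).card : ℝ) / ((Bx (JJ (m + 2) (n + 2)) H).card : ℝ) -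
      ∏ p ∈ Nat.primesBelow t, (1 - 1 / (p : ℝ) ^ 2) ^ 2| < ε / 4 := by
    unfold TT
    exact e1
  set b : ℝ := ((Bx (JJ (m + 2) (n + 2)) H).card : ℝ) with hb
  have e5 : ((TT (m + 2) (n + 2) t H).card : ℝ) / b ≤ ((EE (m + 2) (n + 2) H).card : ℝ) / b +
      (C / ((t - 1 : ℕ) : ℝ) + C / H) := by
    rw [div_add' _ _ _ hbpos.ne']
    exact div_le_div_of_nonneg_right e3 hbpos.le
  have e6 : ((EE (m + 2) (n + 2) H).card : ℝ) / b ≤ ((TT (m + 2) (n + 2) t H).card : ℝ) / b :=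
    div_le_div_of_nonneg_right e4 hbpos.le
  rw [abs_lt] at e1' e2 ⊢
  constructor <;> linarith [e1'.1, e1'.2, e2.1, e2.2]

/-- almost all pairs are coprime -/
lemma lim_S (m n : ℕ) : Tendsto (fun H : ℕ => ((SS (m + 2) (n + 2) H).card : ℝ) /
    ((Bx (JJ (m + 2) (n + 2)) H).card : ℝ)) atTop (𝓝 1) := by
  classical
  rw [tendsto_iff_dist_tendsto_zero]
  have hz : Tendsto (fun H : ℕ => ((n + 2 : ℕ) * 3 ^ (m + n + 5) : ℝ) * (1 / (H : ℝ))) atTop (𝓝 0) := by
    have := (tendsto_one_div_atTop_nhds_zero_nat (𝕜 := ℝ)).const_mul ((n + 2 : ℕ) * 3 ^ (m + n + 5) : ℝ)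
    rwa [mul_zero] at this
  refine squeeze_zero' (Eventually.of_forall fun _ => dist_nonneg) ?_ hz
  filter_upwards [eventually_ge_atTop 1] with H hH
  have hH0 : (0 : ℝ) < H := by exact_mod_cast hH
  have h1 : (SS (m + 2) (n + 2) H).card + ((Bx (JJ (m + 2) (n + 2)) H).filter
      (fun z => ¬ Coprime (ff z) (gg z))).card = (Bx (JJ (m + 2) (n + 2)) H).card := by
    unfold SS
    exact card_filter_add_card_filter_not _
  have hB : (H : ℝ) ^ (m + n + 6) ≤ (Bx (JJ (m + 2) (n + 2)) H).card := by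
    have := card_Bx_ge (JJ (m + 2) (n + 2)) H
    rw [card_Sg, show m + 2 + (n + 2) + 2 = m + n + 6 by ring] at this
    exact_mod_cast this
  have hbpos : (0 : ℝ) < (Bx (JJ (m + 2) (n + 2)) H).card := lt_of_lt_of_le (by positivity) hB
  have h2 : (((Bx (JJ (m + 2) (n + 2)) H).filter (fun z => ¬ Coprime (ff z) (gg z))).card : ℝ) ≤
      (((n + 2) * (2 * H + 1) ^ (m + 2 + (n + 2) + 1) : ℕ) : ℝ) := by exact_mod_cast noncop (m + 2) (n + 2) H
  have h1' : ((SS (m + 2) (n + 2) H).card : ℝ) + (((Bx (JJ (m + 2) (n + 2)) H).filter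
      (fun z => ¬ Coprime (ff z) (gg z))).card : ℝ) = (Bx (JJ (m + 2) (n + 2)) H).card := by exact_mod_cast h1
  rw [Real.dist_eq, abs_sub_comm, abs_of_nonneg]
  · rw [one_sub_div hbpos.ne', ← h1', add_sub_cancel_left, h1', div_le_iff₀ hbpos]
    refine h2.trans ?_
    rw [Nat.cast_mul]
    have h3 := pow_ratio H (m + 2 + (n + 2) + 1) hH
    rw [show m + 2 + (n + 2) + 1 = m + n + 5 by ring] at h3 ⊢
    have h4 : (H : ℝ) ^ (m + n + 5) ≤ 1 / H * (Bx (JJ (m + 2) (n + 2)) H).card := by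
      rw [one_div_mul_eq_div, le_div_iff₀ hH0, ← pow_succ]
      exact hB
    calc ((n + 2 : ℕ) : ℝ) * (((2 * H + 1) ^ (m + n + 5) : ℕ) : ℝ)
        ≤ (n + 2 : ℕ) * (3 ^ (m + n + 5) * (1 / H * (Bx (JJ (m + 2) (n + 2)) H).card)) := by
          apply mul_le_mul_of_nonneg_left _ (by positivity)
          exact h3.trans (mul_le_mul_of_nonneg_left h4 (by positivity))
      _ = _ := by ring
  · rw [sub_nonneg, div_le_one hbpos]
    rw [← h1']
    have : (0 : ℝ) ≤ (((Bx (JJ (m + 2) (n + 2)) H).filter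
      (fun z => ¬ Coprime (ff z) (gg z))).card : ℝ) := Nat.cast_nonneg _
    linarith

/-- polynomials of exact degree `k`, positive leading coefficient, coefficients in `[-H, H]` -/
def PP (k H : ℕ) : Set ℤ[X] := {f | f.natDegree = k ∧ 0 < f.leadingCoeff ∧ ∀ i, |f.coeff i| ≤ (H : ℤ)}

lemma pol_lead {k : ℕ} (x : Fin (k + 1) → ℤ) (h : x (Fin.last k) ≠ 0) :
    (pol x).natDegree = k ∧ (pol x).leadingCoeff = x (Fin.last k) := by
  have h1 : (pol x).coeff k = x (Fin.last k) := by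
    have := pol_coeff x (Fin.last k)
    rwa [Fin.val_last] at this
  have h2 : (pol x).natDegree = k :=
    le_antisymm (pol_natDegree x) (le_natDegree_of_ne_zero (by rw [h1]; exact h))
  exact ⟨h2, by rw [leadingCoeff, h2, h1]⟩

lemma pol_coeff_abs {k : ℕ} (x : Fin (k + 1) → ℤ) (H : ℕ) (h : ∀ i, |x i| ≤ H) (j : ℕ) :
    |(pol x).coeff j| ≤ H := by
  rcases Nat.lt_or_ge j (k + 1) with hj | hj
  · have := pol_coeff x ⟨j, hj⟩
    rw [this]; exact h _
  · rw [coeff_eq_zero_of_natDegree_lt (lt_of_le_of_lt (pol_natDegree x) (by omega))]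
    simp

lemma mem_Bx_iff (m n H : ℕ) (z : Sg m n → ℤ) : z ∈ Bx (JJ m n) H ↔ ff z ∈ PP m H ∧ gg z ∈ PP n H := by
  constructor
  · intro h
    have h1 := lead_mem h
    have h2 := lead_mem' h
    have h3 := mem_Bx_abs h
    obtain ⟨a1, a2⟩ := pol_lead (fun i => z (Sum.inl i)) (by omega)
    obtain ⟨b1, b2⟩ := pol_lead (fun i => z (Sum.inr i)) (by omega)
    refine ⟨⟨a1, ?_, pol_coeff_abs _ H fun i => h3 _⟩, ⟨b1, ?_, pol_coeff_abs _ H fun i => h3 _⟩⟩
    · unfold ff; rw [a2]; omega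
    · unfold gg; rw [b2]; omega
  · rintro ⟨⟨a1, a2, a3⟩, ⟨b1, b2, b3⟩⟩
    unfold Bx
    rw [Fintype.mem_piFinset]
    intro i
    rcases i with i | i
    · have e1 : (ff z).coeff i = z (Sum.inl i) := pol_coeff (fun i => z (Sum.inl i)) i
      have e2 := a3 i
      rw [e1, abs_le] at e2
      unfold Iv JJ
      simp only [decide_eq_true_eq]
      split_ifs with hi
      · rw [mem_Icc]
        rw [leadingCoeff, a1] at a2
        subst hi
        rw [Fin.val_last] at e1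
        rw [e1] at a2
        omega
      · rw [mem_Icc]; omega
    · have e1 : (gg z).coeff i = z (Sum.inr i) := pol_coeff (fun i => z (Sum.inr i)) i
      have e2 := b3 i
      rw [e1, abs_le] at e2
      unfold Iv JJ
      simp only [decide_eq_true_eq]
      split_ifs with hi
      · rw [mem_Icc]
        rw [leadingCoeff, b1] at b2
        subst hi
        rw [Fin.val_last] at e1
        rw [e1] at b2
        omega
      · rw [mem_Icc]; omega

/-- counting pairs of polynomials by coefficient vectors -/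
lemma ncard_pairs (m n H : ℕ) (Q : ℤ[X] → ℤ[X] → Prop) [DecidablePred fun z : Sg m n → ℤ => Q (ff z) (gg z)] :
    {w : ℤ[X] × ℤ[X] | w.1 ∈ PP m H ∧ w.2 ∈ PP n H ∧ Q w.1 w.2}.ncard =
      ((Bx (JJ m n) H).filter (fun z => Q (ff z) (gg z))).card := by
  have h1 : {w : ℤ[X] × ℤ[X] | w.1 ∈ PP m H ∧ w.2 ∈ PP n H ∧ Q w.1 w.2} =
      (fun z : Sg m n → ℤ => (ff z, gg z)) '' (((Bx (JJ m n) H).filter (fun z => Q (ff z) (gg z)) : Finset _) : Set _) := by
    ext ⟨F, G⟩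
    simp only [Set.mem_ofPred_eq, Set.mem_image, Finset.mem_coe, Finset.mem_filter, Prod.mk.injEq]
    constructor
    · rintro ⟨h3, h4, h5⟩
      have e1 : ff (Sum.elim (fun i : Fin (m + 1) => F.coeff i) (fun i : Fin (n + 1) => G.coeff i)) = F :=
        pol_of F h3.1.le
      have e2 : gg (Sum.elim (fun i : Fin (m + 1) => F.coeff i) (fun i : Fin (n + 1) => G.coeff i)) = G :=
        pol_of G h4.1.le
      refine ⟨Sum.elim (fun i => F.coeff i) (fun i => G.coeff i), ⟨?_, ?_⟩, e1, e2⟩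
      · rw [mem_Bx_iff, e1, e2]; exact ⟨h3, h4⟩
      · rw [e1, e2]; exact h5
    · rintro ⟨r, ⟨h3, h4⟩, rfl, rfl⟩
      rw [mem_Bx_iff] at h3
      exact ⟨h3.1, h3.2, h4⟩
  rw [h1, Set.ncard_image_of_injective, Set.ncard_coe_finset]
  intro r s h
  simp only [Prod.mk.injEq] at h
  have e1 := pol_inj h.1
  have e2 := pol_inj h.2
  funext i
  rcases i with i | i
  · exact congrFun e1 i
  · exact congrFun e2 i

/-- the final statement -/
theorem final (m n : ℕ) (hm : 2 ≤ m) (hn : 2 ≤ n) :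
    Tendsto (fun H : ℕ =>
      ({w : ℤ[X] × ℤ[X] | w.1 ∈ PP m H ∧ w.2 ∈ PP n H ∧ (Coprime w.1 w.2 ∧ B w.1 w.2 = R w.1 w.2)}.ncard : ℝ) /
      ({w : ℤ[X] × ℤ[X] | w.1 ∈ PP m H ∧ w.2 ∈ PP n H ∧ Coprime w.1 w.2}.ncard : ℝ)) atTop
      (𝓝 (36 / Real.pi ^ 4)) := by
  classical
  obtain ⟨a, rfl⟩ : ∃ a, m = a + 2 := ⟨m - 2, by omega⟩
  obtain ⟨b, rfl⟩ : ∃ b, n = b + 2 := ⟨n - 2, by omega⟩
  have h1 := (lim_E a b).div (lim_S a b) one_ne_zero
  rw [div_one] at h1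
  refine h1.congr' ?_
  filter_upwards [eventually_ge_atTop 1] with H hH
  have hbpos : (0 : ℝ) < (Bx (JJ (a + 2) (b + 2)) H).card := by
    have := card_Bx_ge (JJ (a + 2) (b + 2)) H
    have h5 : 0 < H ^ Fintype.card (Sg (a + 2) (b + 2)) := pow_pos (by omega) _
    exact_mod_cast lt_of_lt_of_le h5 this
  simp only [Pi.div_apply]
  rw [div_div_div_cancel_right₀ hbpos.ne']
  congr 2
  · rw [ncard_pairs (a + 2) (b + 2) H (fun f g => Coprime f g ∧ B f g = R f g)]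
    unfold EE
    congr 1
    ext z
    simp only [mem_filter]
    constructor
    · rintro ⟨h3, h4, h5⟩
      obtain ⟨h6, h7⟩ := (mem_Bx_iff _ _ _ _).1 h3
      exact ⟨h3, h4, (B_eq_R_iff h6.1 h7.1 (by omega) (by omega) h4).2 h5⟩
    · rintro ⟨h3, h4, h5⟩
      obtain ⟨h6, h7⟩ := (mem_Bx_iff _ _ _ _).1 h3
      exact ⟨h3, h4, (B_eq_R_iff h6.1 h7.1 (by omega) (by omega) h4).1 h5⟩
  · rw [ncard_pairs (a + 2) (b + 2) H Coprime]
    rfl

end Pool.Agent.R492.Bez
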